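import Pool.Agent.V7H54.A.Bc
import Pool.Agent.V7H54.N.QuN

/-!
# Reduced bases with an antidiagonal Gram matrix: the theorem, if there is an isotropic vector
-/

set_option autoImplicit false
set_option linter.all false

open Polynomial Matrix NumberField
open scoped Classical

namespace Pool.Agent.V7H54.W

open Pool.Agent.V7H54.A
open Pool.Agent.V7H54.N
open Pool.Agent.N783.PQ (chp)
open Pool.Agent.N783.PF
open Pool.Agent.N352.PJ (Mt Typ)

theorem bas3 : ∃ D : ℕ, 1 ≤ D ∧ ∀ (L : Type) [Field L] [NumberField L] [Algebra ℚ L] (A t : ℤ)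
    (B : ℕ) (θ : L) (hG : IsGen 1 (pol A t) θ) (α : L) (Λ : Submodule (𝓞 ℚ) L),
    (∃ z ∈ Λ, z ≠ 0 ∧ hG.top (z * z / α) = 0) →
    Ht 1 B (pol A t) → α ≠ 0 → IsSquare (Algebra.norm ℚ α) → Lat hG α Λ →
    ∃ (P r : ℤ) (k : ℕ) (g : Fin 3 → L), Bas hG α Λ P r D k g := by
  obtain ⟨C, hC⟩ := Pool.Agent.N783.PF.typ 1 ℚ
  obtain ⟨H, hH⟩ : ∃ H : ℕ, H = 4 ^ C := ⟨_, rfl⟩
  obtain ⟨D₂, hD₂⟩ := small (H ^ 3)
  obtain ⟨D, hD⟩ : ∃ D : ℕ, D = 48 * H ^ 5 + 12 * D₂ ^ 2 * H ^ 3 + D₂ + 1 := ⟨_, rfl⟩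
  refine ⟨D, by omega, fun L _ _ _ A t B θ hG α Λ hA hHt hα hN hL => ?_⟩
  obtain ⟨e, w, he, hli, hT, hw⟩ := hC le_rfl B L (pol A t) θ hG α Λ hHt hα hL
  obtain ⟨G, hGG, hs, x, hx0, hdet⟩ := gram hG hα hN hL he hli
  have hw1 : w 1 = 0 := by
    have h := hT.anti 1
    have e1 : Fin.rev (1 : Fin (2 * 1 + 1)) = 1 := by decide
    rw [e1] at h
    omega
  have hw2 : w 2 = -w 0 := by
    have h := hT.anti 0
    have e1 : Fin.rev (0 : Fin (2 * 1 + 1)) = 2 := by decide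
    rw [e1] at h
    exact h
  have hw20 : 0 ≤ w 2 := by
    have h : w 0 ≤ w 2 := hT.mono (by decide)
    omega
  obtain ⟨k, hk⟩ : ∃ k : ℕ, (k : ℤ) = w 2 := ⟨(w 2).toNat, Int.toNat_of_nonneg hw20⟩
  have hHr : (H : ℝ) = 4 ^ C := by rw [hH]; push_cast; rfl
  have hH1 : (1 : ℝ) ≤ H := by rw [hHr]; exact one_le_pow₀ (by norm_num)
  have hH0 : (0 : ℝ) < H := by linarith
  obtain ⟨y, hy⟩ : ∃ y : ℝ, y = 2 ^ k := ⟨_, rfl⟩
  have hy1 : 1 ≤ y := by rw [hy]; exact one_le_pow₀ (by norm_num)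
  have hy0 : 0 < y := by linarith
  have hy4 : (4 : ℝ) ^ k = y ^ 2 := by
    rw [hy, ← pow_mul, mul_comm, pow_mul]
    norm_num
  obtain ⟨q, hq⟩ : ∃ q : Fin 3 → ℝ, q = fun i => HH (pol A t) θ α (e i) := ⟨_, rfl⟩
  have hqi : ∀ i, HH (pol A t) θ α (e i) = q i := fun i => by rw [hq]
  have hq0 : ∀ i, 0 ≤ q i := fun i => by rw [← hqi]; exact HH_nonneg' _ _ _ _
  have b0 : q 0 * y ^ 2 ≤ H := by
    have h := hw 0
    rw [hqi] at h
    have e1 : w 0 = -(k : ℤ) := by omega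
    rw [e1, zpow_add₀ (by norm_num), zpow_natCast, _root_.zpow_neg, zpow_natCast, ← hHr, hy4] at h
    calc q 0 * y ^ 2 ≤ (H : ℝ) * (y ^ 2)⁻¹ * y ^ 2 := by gcongr
      _ = (H : ℝ) := by field_simp
  have b1 : q 1 ≤ H := by
    have h := hw 1
    rw [hqi, hw1, add_zero, zpow_natCast, ← hHr] at h
    exact h
  have b2 : q 2 ≤ H * y ^ 2 := by
    have h := hw 2
    rw [hqi, ← hk, zpow_add₀ (by norm_num), zpow_natCast, zpow_natCast, ← hHr, hy4] at h
    exact h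
  have hGe : ∀ i j, (G i j : ℝ) ^ 2 ≤ q i * q j := by
    intro i j
    have h := maj1 hG hHt hα 0 (e i) (e j) (n := G i j) (by rw [pow_zero, one_mul]; exact hGG i j)
    rw [mul_zero, pow_zero, one_mul, hqi, hqi] at h
    exact h
  by_cases hbig : 2 * C < k
  · -- the first vector is isotropic
    have hyH : (H : ℝ) ^ 2 < y ^ 2 := by
      rw [← hy4, hHr, ← pow_mul]
      exact pow_lt_pow_right₀ (by norm_num) (by omega)
    have hyH' : (H : ℝ) < y := lt_of_pow_lt_pow_left₀ 2 hy0.le hyH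
    have g00 : G 0 0 = 0 := by
      refine zero_of_sq (R := y ^ 4) (by positivity) ?_
      calc (G 0 0 : ℝ) ^ 2 * y ^ 4 ≤ q 0 * q 0 * y ^ 4 := by
            have := hGe 0 0
            gcongr
        _ = (q 0 * y ^ 2) * (q 0 * y ^ 2) := by ring
        _ ≤ H * H := by
            have := hq0 0
            gcongr
        _ < y ^ 2 * 1 := by nlinarith
        _ ≤ y ^ 2 * y ^ 2 := by
            have : 1 ≤ y ^ 2 := one_le_pow₀ hy1
            gcongr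
        _ = y ^ 4 := by ring
    have g01 : G 0 1 = 0 := by
      refine zero_of_sq (R := y ^ 2) (by positivity) ?_
      calc (G 0 1 : ℝ) ^ 2 * y ^ 2 ≤ q 0 * q 1 * y ^ 2 := by
            have := hGe 0 1
            gcongr
        _ = (q 0 * y ^ 2) * q 1 := by ring
        _ ≤ H * H := by
            have := hq0 1
            gcongr
        _ < y ^ 2 := by nlinarith
    have hp : |(G 0 2 : ℝ)| ≤ H := by
      refine abs_of_sq hH0.le ?_
      have h1 := hGe 0 2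
      have h2 : q 0 * q 2 ≤ q 0 * (H * y ^ 2) := mul_le_mul_of_nonneg_left b2 (hq0 0)
      nlinarith
    have hr : |(G 1 1 : ℝ)| ≤ H := by
      refine abs_of_sq hH0.le ?_
      have h1 := hGe 1 1
      have h2 : q 1 * q 1 ≤ H * H := mul_le_mul b1 b1 (hq0 1) hH0.le
      nlinarith
    have hs' : |(G 1 2 : ℝ)| ≤ H * y := by
      refine abs_of_sq (by positivity) ?_
      have h1 := hGe 1 2
      have h2 : q 1 * q 2 ≤ H * (H * y ^ 2) := mul_le_mul b1 b2 (hq0 2) hH0.le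
      nlinarith
    have hu : |(G 2 2 : ℝ)| ≤ H * y ^ 2 := by
      refine abs_of_sq (by positivity) ?_
      have h1 := hGe 2 2
      have h2 : q 2 * q 2 ≤ (H * y ^ 2) * (H * y ^ 2) := mul_le_mul b2 b2 (hq0 2) (by positivity)
      nlinarith
    have hdet' : G.det = -(G 0 2 ^ 2 * G 1 1) := by
      rw [Matrix.det_fin_three, g00, g01, hs 2 0, hs 1 0, g01]
      ring
    have hne : G 0 2 ^ 2 * G 1 1 ≠ 0 := by
      intro h
      rw [hdet', h] at hdet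
      apply hx0
      have : x ^ 2 = 0 := by linarith
      exact pow_eq_zero_iff (by norm_num) |>.1 this
    have hp0 : G 0 2 ≠ 0 := fun h => hne (by rw [h]; ring)
    have hr0 : G 1 1 ≠ 0 := fun h => hne (by rw [h]; ring)
    obtain ⟨p, hpd⟩ : ∃ p, p = G 0 2 := ⟨_, rfl⟩
    obtain ⟨r, hrd⟩ : ∃ r, r = G 1 1 := ⟨_, rfl⟩
    obtain ⟨s, hsd⟩ : ∃ s, s = G 1 2 := ⟨_, rfl⟩
    obtain ⟨u, hud⟩ : ∃ u, u = G 2 2 := ⟨_, rfl⟩
    obtain ⟨v₀, hv₀⟩ : ∃ v₀ : Fin 3 → ℤ, v₀ = ![1, 0, 0] := ⟨_, rfl⟩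
    obtain ⟨v₁, hv₁⟩ : ∃ v₁ : Fin 3 → ℤ, v₁ = ![0, 1, 0] := ⟨_, rfl⟩
    obtain ⟨v₂, hv₂⟩ : ∃ v₂ : Fin 3 → ℤ, v₂ = ![-(r * u - s ^ 2), -(2 * p * s), 2 * p * r] :=
      ⟨_, rfl⟩
    have v00 : v₀ 0 = 1 := by rw [hv₀]; rfl
    have v01 : v₀ 1 = 0 := by rw [hv₀]; rfl
    have v02 : v₀ 2 = 0 := by rw [hv₀]; rfl
    have v10 : v₁ 0 = 0 := by rw [hv₁]; rfl
    have v11 : v₁ 1 = 1 := by rw [hv₁]; rfl
    have v12 : v₁ 2 = 0 := by rw [hv₁]; rfl
    have v20 : v₂ 0 = -(r * u - s ^ 2) := by rw [hv₂]; rfl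
    have v21 : v₂ 1 = -(2 * p * s) := by rw [hv₂]; rfl
    have v22 : v₂ 2 = 2 * p * r := by rw [hv₂]; rfl
    rw [← hpd] at hp hp0
    rw [← hrd] at hr hr0
    rw [← hsd] at hs'
    rw [← hud] at hu
    have hDr : (D : ℝ) = 48 * H ^ 5 + 12 * D₂ ^ 2 * H ^ 3 + D₂ + 1 := by rw [hD]; push_cast; ring
    have hD48 : 48 * (H : ℝ) ^ 5 ≤ D := by
      rw [hDr]
      have : (0 : ℝ) ≤ 12 * D₂ ^ 2 * H ^ 3 + D₂ := by positivity
      linarith
    have hH15 : (H : ℝ) ≤ H ^ 5 := by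
      have := pow_le_pow_right₀ hH1 (show 1 ≤ 5 by norm_num)
      rwa [pow_one] at this
    have hH35 : (H : ℝ) ^ 3 ≤ H ^ 5 := pow_le_pow_right₀ hH1 (by norm_num)
    have hHp : (0 : ℝ) < H ^ 5 := by positivity
    refine ⟨2 * p ^ 2 * r, r, k, _, bas_of (v := v₀) (u := v₁) (w := v₂) hG he hGG
      (mul_ne_zero (by positivity) hr0) hr0 ?_ ?_ ?_ ?_ ?_ ?_ ?_ ?_ ?_ ?_ ?_⟩
    · rw [bf_eq, v00, v01, v02, g00]; ring
    · rw [bf_eq, v00, v01, v02, v10, v11, v12, g01]; ring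
    · rw [bf_eq, v00, v01, v02, v20, v21, v22, g00, g01, ← hpd]; ring
    · rw [bf_eq, v10, v11, v12, ← hrd]; ring
    · rw [bf_eq, v10, v11, v12, v20, v21, v22, hs 1 0, g01, ← hrd, ← hsd]; ring
    · rw [bf_eq, v20, v21, v22, hs 1 0, hs 2 0, hs 2 1, g00, g01, ← hpd, ← hrd, ← hsd, ← hud]; ring
    · push_cast
      rw [abs_mul, abs_mul, abs_pow, abs_of_pos (by norm_num : (0 : ℝ) < 2)]
      calc 2 * |(p : ℝ)| ^ 2 * |(r : ℝ)| ≤ 2 * (H : ℝ) ^ 2 * H := by gcongr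
        _ = 2 * (H : ℝ) ^ 3 := by ring
        _ ≤ D := by linarith
    · linarith
    · have h := HH_vec (pol A t) θ α e v₀
      rw [v00, v01, v02, hqi, hqi, hqi] at h
      rw [hy4]
      have h2 : HH (pol A t) θ α (vec e v₀) ≤ 4 * q 0 := by
        refine h.trans (le_of_eq ?_)
        push_cast
        ring
      calc HH (pol A t) θ α (vec e v₀) * y ^ 2 ≤ 4 * q 0 * y ^ 2 := by gcongr
        _ = 4 * (q 0 * y ^ 2) := by ring
        _ ≤ 4 * H := by gcongr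
        _ ≤ D := by linarith
    · have h := HH_vec (pol A t) θ α e v₁
      rw [v10, v11, v12, hqi, hqi, hqi] at h
      refine h.trans ?_
      calc 4 * ((((0 : ℤ) : ℝ)) ^ 2 * q 0 + (((1 : ℤ) : ℝ)) ^ 2 * q 1 + (((0 : ℤ) : ℝ)) ^ 2 * q 2)
          = 4 * q 1 := by push_cast; ring
        _ ≤ 4 * H := by gcongr
        _ ≤ D := by linarith
    · have h := HH_vec (pol A t) θ α e v₂
      rw [v20, v21, v22, hqi, hqi, hqi] at h
      rw [hy4]
      have hp2 := sq_of_abs hp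
      have hr2 := sq_of_abs hr
      have hs2 := sq_of_abs hs'
      have c0 : ((-(r * u - s ^ 2) : ℤ) : ℝ) ^ 2 ≤ 4 * H ^ 4 * y ^ 4 := by
        have h3 : |((-(r * u - s ^ 2) : ℤ) : ℝ)| ≤ 2 * H ^ 2 * y ^ 2 := by
          push_cast
          rw [abs_neg]
          calc |(r : ℝ) * u - (s : ℝ) ^ 2| ≤ |(r : ℝ) * u| + |(s : ℝ) ^ 2| := abs_sub _ _
            _ = |(r : ℝ)| * |(u : ℝ)| + |(s : ℝ)| ^ 2 := by rw [abs_mul, abs_pow]
            _ ≤ H * (H * y ^ 2) + (H * y) ^ 2 := by gcongr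
            _ = _ := by ring
        refine (sq_of_abs h3).trans (le_of_eq ?_)
        ring
      have c1 : ((-(2 * p * s) : ℤ) : ℝ) ^ 2 ≤ 4 * H ^ 4 * y ^ 2 := by
        push_cast
        calc (-(2 * (p : ℝ) * s)) ^ 2 = 4 * (p : ℝ) ^ 2 * (s : ℝ) ^ 2 := by ring
          _ ≤ 4 * (H : ℝ) ^ 2 * (H * y) ^ 2 := by gcongr
          _ = _ := by ring
      have c2 : ((2 * p * r : ℤ) : ℝ) ^ 2 ≤ 4 * H ^ 4 := by
        push_cast
        calc (2 * (p : ℝ) * r) ^ 2 = 4 * (p : ℝ) ^ 2 * (r : ℝ) ^ 2 := by ring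
          _ ≤ 4 * (H : ℝ) ^ 2 * H ^ 2 := by gcongr
          _ = _ := by ring
      calc HH (pol A t) θ α (vec e v₂) ≤ 4 * (4 * H ^ 4 * y ^ 4 * q 0 + 4 * H ^ 4 * y ^ 2 * q 1 +
            4 * H ^ 4 * q 2) := by
            refine h.trans ?_
            have := hq0 0
            have := hq0 1
            have := hq0 2
            gcongr
        _ = 16 * H ^ 4 * (y ^ 2 * (q 0 * y ^ 2) + y ^ 2 * q 1 + q 2) := by ring
        _ ≤ 16 * H ^ 4 * (y ^ 2 * H + y ^ 2 * H + H * y ^ 2) := by gcongr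
        _ = 48 * (H : ℝ) ^ 5 * y ^ 2 := by ring
        _ ≤ D * y ^ 2 := by gcongr
  · -- finitely many Gram matrices
    push Not at hbig
    have hyH : y ^ 2 ≤ (H : ℝ) ^ 2 := by
      rw [← hy4, hHr, ← pow_mul]
      exact pow_le_pow_right₀ (by norm_num) (by omega)
    have hH3 : (H : ℝ) ≤ (H : ℝ) ^ 3 := by
      have := pow_le_pow_right₀ hH1 (show 1 ≤ 3 by norm_num)
      rwa [pow_one] at this
    have hqH : ∀ i, q i ≤ (H : ℝ) ^ 3 := by
      intro i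
      fin_cases i
      · have h1 : q 0 ≤ q 0 * y ^ 2 := le_mul_of_one_le_right (hq0 0) (one_le_pow₀ hy1)
        exact h1.trans (b0.trans hH3)
      · exact b1.trans hH3
      · calc q 2 ≤ H * y ^ 2 := b2
          _ ≤ H * (H : ℝ) ^ 2 := by gcongr
          _ = _ := by ring
    have hGH : ∀ i j, |G i j| ≤ ((H ^ 3 : ℕ) : ℤ) := by
      intro i j
      have h1 : |(G i j : ℝ)| ≤ (H : ℝ) ^ 3 := by
        refine abs_of_sq (by positivity) ?_
        calc (G i j : ℝ) ^ 2 ≤ q i * q j := hGe i j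
          _ ≤ (H : ℝ) ^ 3 * H ^ 3 := mul_le_mul (hqH i) (hqH j) (hq0 j) (by positivity)
          _ = _ := by ring
      exact_mod_cast h1
    obtain ⟨z, hzΛ, hz0, hz⟩ := hA
    have hdet0 : G.det ≠ 0 := by
      rw [hdet]
      exact neg_ne_zero.2 (pow_ne_zero 2 hx0)
    obtain ⟨v, u, w', P, r, a1, a2, a3, a4, a5, a6, a7, a8, a9, a10, a11⟩ :=
      hD₂ G hGH hs hdet0 (iso_gram hG hli hGG hz0 hz)
    have hDr : (D : ℝ) = 48 * H ^ 5 + 12 * D₂ ^ 2 * H ^ 3 + D₂ + 1 := by rw [hD]; push_cast; ring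
    have hDD : (D₂ : ℝ) ≤ D := by
      rw [hDr]
      have : (0 : ℝ) ≤ 48 * H ^ 5 + 12 * D₂ ^ 2 * H ^ 3 := by positivity
      linarith
    have hDE : 12 * (D₂ : ℝ) ^ 2 * H ^ 3 ≤ D := by
      rw [hDr]
      have : (0 : ℝ) ≤ 48 * H ^ 5 + D₂ := by positivity
      linarith
    have hvec : ∀ n : Fin 3 → ℤ, (∀ i, |n i| ≤ D₂) → HH (pol A t) θ α (vec e n) ≤ D := by
      intro n hn
      have hn' : ∀ i, (n i : ℝ) ^ 2 ≤ (D₂ : ℝ) ^ 2 := fun i => sq_of_abs (by exact_mod_cast hn i)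
      have h := HH_vec (pol A t) θ α e n
      rw [hqi, hqi, hqi] at h
      calc HH (pol A t) θ α (vec e n) ≤ 4 * ((n 0 : ℝ) ^ 2 * q 0 + (n 1 : ℝ) ^ 2 * q 1 +
            (n 2 : ℝ) ^ 2 * q 2) := h
        _ ≤ 4 * ((D₂ : ℝ) ^ 2 * H ^ 3 + (D₂ : ℝ) ^ 2 * H ^ 3 + (D₂ : ℝ) ^ 2 * H ^ 3) := by
            have := hq0 0
            have := hq0 1
            have := hq0 2
            have := hqH 0
            have := hqH 1
            have := hqH 2
            have := hn' 0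
            have := hn' 1
            have := hn' 2
            gcongr
        _ = 12 * (D₂ : ℝ) ^ 2 * H ^ 3 := by ring
        _ ≤ D := hDE
    refine ⟨P, r, 0, _, bas_of (v := v) (u := u) (w := w') hG he hGG a1 a2 a3 a4 a5 a6 a7 a8
      ?_ ?_ ?_ ?_ ?_⟩
    · have : |(P : ℝ)| ≤ D₂ := by exact_mod_cast a9
      exact this.trans hDD
    · have : |(r : ℝ)| ≤ D₂ := by exact_mod_cast a10
      exact this.trans hDD
    · rw [pow_zero, mul_one]
      exact hvec v fun i => (a11 i).1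
    · exact hvec u fun i => (a11 i).2.1
    · rw [pow_zero, mul_one]
      exact hvec w' fun i => (a11 i).2.2

section lat

variable {L : Type} [Field L] [NumberField L] [Algebra ℚ L] {A t : ℤ} {θ : L}
  {α : L} {Λ : Submodule (𝓞 ℚ) L}

/-- **A lattice of a nonsquare gives a bad parameter.** -/
theorem bad_of3 : ∃ C₁ : ℕ, 1 ≤ C₁ ∧ ∀ (L : Type) [Field L] [NumberField L] [Algebra ℚ L] (A t : ℤ)
    (B : ℕ) (θ : L) (hG : IsGen 1 (pol A t) θ) (α : L) (Λ : Submodule (𝓞 ℚ) L),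
    (∃ z ∈ Λ, z ≠ 0 ∧ hG.top (z * z / α) = 0) →
    Ht 1 B (pol A t) → α ≠ 0 → IsSquare (Algebra.norm ℚ α) → Lat hG α Λ → ¬ IsSquare α →
    ∃ P r : ℤ, (P, r) ∈ Pr C₁ ∧ ∃ k : ℕ, BkI A C₁ B P r k (fun _ : Unit => Rel hG α P r) () := by
  obtain ⟨D, hD1, hD⟩ := bas3
  obtain ⟨C₁, hC₁⟩ : ∃ C₁ : ℕ, C₁ = 72 * D ^ 5 := ⟨_, rfl⟩
  have hD1' : (1 : ℝ) ≤ D := by exact_mod_cast hD1
  refine ⟨C₁, by rw [hC₁]; have : 0 < D ^ 5 := by positivity
                 omega, ?_⟩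
  intro L _ _ _ A t B θ hG α Λ hA hHt hα hN hL hns
  obtain ⟨P, r, k, g, hB⟩ := hD L A t B θ hG α Λ hA hHt hα hN hL
  have hM1 : (1 : ℝ) ≤ 36 * D ^ 5 := by
    have : (1 : ℝ) ≤ (D : ℝ) ^ 5 := one_le_pow₀ hD1'
    linarith
  have hMC : 2 * (36 * (D : ℝ) ^ 5) ≤ C₁ := by rw [hC₁]; push_cast; linarith
  have key := fun m (hm : m < 2 ^ k) => cd_of2 hHt hα hN hL hM1 (unip hD1' hB hm) hMC
  obtain ⟨hr0, hsq, -⟩ := key 0 (by positivity)
  -- the form of `θ`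
  have hex : ∀ i j, ∃ n : ℤ, (n : ℚ) = hG.top (θ * (g i * g j) / α) := by
    intro i j
    have h := exists_int hG hL (hL.stab _ (hB.mem i)) (hB.mem j)
    rwa [mul_assoc] at h
  choose H hH using hex
  have hvec : ∀ n m : Fin 3 → ℤ, ((bf (Matrix.of H) n m : ℤ) : ℚ) =
      hG.top (θ * (Pool.Agent.V7H54.A.vec g n * Pool.Agent.V7H54.A.vec g m) / α) := by
    intro n m
    have e1 : θ * (Pool.Agent.V7H54.A.vec g n * Pool.Agent.V7H54.A.vec g m) / α =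
        ∑ i, ∑ j, ((n i * m j : ℤ) : L) * (θ * (g i * g j) / α) := by
      unfold Pool.Agent.V7H54.A.vec
      rw [Finset.sum_mul, Finset.mul_sum, Finset.sum_div]
      refine Finset.sum_congr rfl fun i _ => ?_
      rw [Finset.mul_sum, Finset.mul_sum, Finset.sum_div]
      refine Finset.sum_congr rfl fun j _ => ?_
      push_cast
      ring
    rw [e1, map_sum]
    unfold bf
    push_cast
    refine Finset.sum_congr rfl fun i _ => ?_
    rw [map_sum]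
    refine Finset.sum_congr rfl fun j _ => ?_
    have := top_int hG (n i * m j) (θ * (g i * g j) / α)
    push_cast at this
    rw [this, ← hH]
    rfl
  have hli : LinearIndependent ℚ g := by
    refine li_of_gram (α := α) hG hB.gram ?_
    have : (am P r).det = -(P ^ 2 * r) := by
      unfold am
      rw [Matrix.det_fin_three]
      have : (0 : ℤ) * r * 0 - 0 * 0 * 0 - 0 * 0 * 0 + 0 * 0 * P + P * 0 * 0 - P * r * P =
        -(P ^ 2 * r) := by ring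
      exact this
    rw [this]
    exact neg_ne_zero.2 (mul_ne_zero (pow_ne_zero 2 hB.P0) hB.r0)
  have ha0 : H 0 0 ≠ 0 := by
    intro h0
    apply hns
    refine Pool.Agent.N482.PF.sq 1 ℚ L (pol A t) θ le_rfl hG α g hα hli ?_ ?_ hN
    · intro i j hi hj
      have hi0 : i = 0 := Fin.ext (by simpa using hi)
      have hj0 : j = 0 := Fin.ext (by simpa using hj)
      rw [hi0, hj0]
      have := hB.gram 0 0
      have e : am P r 0 0 = 0 := rfl
      rw [e, Int.cast_zero] at this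
      exact this.symm
    · intro i j hi hj
      have hi0 : i = 0 := Fin.ext (by simpa using hi)
      have hj0 : j = 0 := Fin.ext (by simpa using hj)
      rw [hi0, hj0, ← hH, h0, Int.cast_zero]
  have hcd : ∀ m : ℕ, m < 2 ^ k → ∃ c d e : ℤ,
      CdI A C₁ B P r k (fun _ : Unit => Rel hG α P r) () (H 0 0) (H 0 1 + 2 * r * m * H 0 0) c d e := by
    intro m hm
    obtain ⟨-, -, a, b, c, d, e, ha, hb, hcd⟩ := key m hm
    refine ⟨c, d, e, ?_⟩
    have ea : a = H 0 0 := by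
      have h1 : (a : ℚ) = ((bf (Matrix.of H) ![1, 0, 0] ![1, 0, 0] : ℤ) : ℚ) := by
        rw [hvec]
        exact ha
      have h2 : a = bf (Matrix.of H) ![1, 0, 0] ![1, 0, 0] := by exact_mod_cast h1
      rw [h2, bf_eq]
      simp
    have eb : b = H 0 1 + 2 * r * m * H 0 0 := by
      have h1 : (b : ℚ) = ((bf (Matrix.of H) ![1, 0, 0] ![2 * r * m, 1, 0] : ℤ) : ℚ) := by
        rw [hvec]
        exact hb
      have h2 : b = bf (Matrix.of H) ![1, 0, 0] ![2 * r * m, 1, 0] := by exact_mod_cast h1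
      rw [h2, bf_eq]
      simp
      ring
    rw [ea, eb] at hcd
    exact hcd
  have hPM : |P| ≤ C₁ := by
    have h1 : |(P : ℝ)| ≤ C₁ := hB.Pb.trans (by
      have : (D : ℝ) ≤ (D : ℝ) ^ 5 := by
        have := pow_le_pow_right₀ hD1' (show 1 ≤ 5 by norm_num)
        rwa [pow_one] at this
      linarith)
    exact_mod_cast h1
  have hrM : |r| ≤ C₁ := by
    have h1 : |(r : ℝ)| ≤ C₁ := hB.rb.trans (by
      have : (D : ℝ) ≤ (D : ℝ) ^ 5 := by
        have := pow_le_pow_right₀ hD1' (show 1 ≤ 5 by norm_num)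
        rwa [pow_one] at this
      linarith)
    exact_mod_cast h1
  refine ⟨P, r, ?_, k, ?_, H 0 0, H 0 1, ha0, hcd⟩
  · unfold Pr
    rw [Finset.mem_filter, Finset.mem_product, Finset.mem_Icc, Finset.mem_Icc]
    refine ⟨⟨abs_le.1 hPM, ?_, (le_abs_self r).trans hrM⟩, hB.P0, hsq⟩
    show 1 ≤ r
    omega
  · obtain ⟨c, d, e, h1, -⟩ := hcd 0 (by positivity)
    have h2 : (1 : ℝ) ≤ |(H 0 0 : ℝ)| := by
      rw [← Int.cast_abs]
      exact_mod_cast Int.one_le_abs ha0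
    have h3 := h2.trans h1
    rw [le_div_iff₀ (by positivity)] at h3
    linarith

end lat

end Pool.Agent.V7H54.W
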