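import Pool.Agent.V7H54.W.Rg
import Pool.Agent.V7H54.A.Qc

/-!
# The points of a quadric of dimension four in a skew box, uniformly in the constant term
-/

set_option autoImplicit false
set_option linter.all false

open scoped Real
open Finset

namespace Pool.Agent.V7H54.W

open Pool.Agent.V7H54.A

section est

variable {X τ s r L la w wa c₀ E E₁ : ℝ}

/-- the first region -/
theorem we1 (hX : 1 ≤ X) (hτ : 1 ≤ τ) (hr : 1 ≤ r) (hL : 1 ≤ L) (hw : 0 ≤ w)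
    (hla0 : 0 ≤ la) (hla : la ≤ L) (hwa0 : 0 ≤ wa) (hwa : wa ≤ w / τ) :
    128 * X * (X * τ) * (20 * τ * (X / τ ^ 2) + 4 * (τ + la) * wa) ≤
      2560 * X ^ 3 + 1024 * (X ^ 2 * w * (τ * r) * L) := by
  have hτ0 : 0 < τ := by linarith
  have f1 : 128 * X * (X * τ) * (20 * τ * (X / τ ^ 2)) = 2560 * X ^ 3 := by
    field_simp
    ring
  have f2 : 128 * X * (X * τ) * (4 * (τ + la) * wa) ≤ 1024 * (X ^ 2 * w * (τ * r) * L) := by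
    calc 128 * X * (X * τ) * (4 * (τ + la) * wa)
        ≤ 128 * X * (X * τ) * (4 * (2 * (τ * L)) * (w / τ)) := by
          have g2 : 4 * (τ + la) ≤ 4 * (2 * (τ * L)) := by nlinarith
          gcongr
      _ = 1024 * (X ^ 2 * w * τ * L) := by
          field_simp
          ring
      _ ≤ 1024 * (X ^ 2 * w * (τ * r) * L) := by
          have : τ ≤ τ * r := by nlinarith
          gcongr
  rw [mul_add, f1]
  linarith

theorem we2 (hX : 1 ≤ X) (hτ : 1 ≤ τ) (hr : 1 ≤ r) (hL : 1 ≤ L) (hw : 0 ≤ w) (hc : 0 ≤ c₀)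
    (hla0 : 0 ≤ la) (hla : la ≤ L) (hwa0 : 0 ≤ wa) (hwa : wa ≤ w / τ) :
    64 * c₀ * (X * τ) * (8 * τ * (X / τ ^ 2) * wa + 2 * (τ + la) * (X / τ ^ 2 * wa)) ≤
      1024 * c₀ * (X ^ 2 * w * (τ * r) * L) := by
  have hτ0 : 0 < τ := by linarith
  calc 64 * c₀ * (X * τ) * (8 * τ * (X / τ ^ 2) * wa + 2 * (τ + la) * (X / τ ^ 2 * wa))
      ≤ 64 * c₀ * (X * τ) * (8 * (τ * L) * (X / τ ^ 2) * (w / τ) +
      2 * (2 * (τ * L)) * (X / τ ^ 2 * (w / τ))) := by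
        have g1 : τ ≤ τ * L := by nlinarith
        have g2 : τ + la ≤ 2 * (τ * L) := by nlinarith
        gcongr
    _ = 768 * c₀ * (X ^ 2 * w * L / τ) := by
        field_simp
        ring
    _ ≤ 768 * c₀ * (X ^ 2 * w * (τ * r) * L) := by
        have g1 : X ^ 2 * w * L / τ ≤ X ^ 2 * w * L := div_le_self (by positivity) hτ
        have g3 : 1 ≤ τ * r := by nlinarith
        have g4 : 0 ≤ X ^ 2 * w * L := by positivity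
        have g2 : X ^ 2 * w * L ≤ X ^ 2 * w * (τ * r) * L := by nlinarith
        exact mul_le_mul_of_nonneg_left (g1.trans g2) (by positivity)
    _ ≤ 1024 * c₀ * (X ^ 2 * w * (τ * r) * L) := by
        gcongr
        norm_num

theorem we3 (hX : 1 ≤ X) (hτ : 1 ≤ τ) (hr : 1 ≤ r) (hL : 1 ≤ L) (hw : 0 ≤ w)
    (hs0 : 0 ≤ s) (hsw : s ≤ w) (hE0 : 0 ≤ E) (hE₁ : 0 ≤ E₁) (hE : E ≤ s * L * E₁) (hwa0 : 0 ≤ wa)
    (hwa : wa ≤ X) :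
    2 * E * (20 * τ * (X / τ ^ 2) ^ 2 + 4 * (X / τ ^ 2 * wa)) ≤
      48 * E₁ * (X ^ 2 * w * (τ * r) * L) := by
  have hτ0 : 0 < τ := by linarith
  have g1 : 20 * τ * (X / τ ^ 2) ^ 2 ≤ 20 * X ^ 2 := by
    have : 20 * τ * (X / τ ^ 2) ^ 2 = 20 * X ^ 2 / τ ^ 3 := by
      field_simp
    rw [this]
    exact div_le_self (by positivity) (one_le_pow₀ hτ)
  have g2 : 4 * (X / τ ^ 2 * wa) ≤ 4 * X ^ 2 := by
    have h4 : X / τ ^ 2 ≤ X := div_le_self (by positivity) (one_le_pow₀ hτ)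
    calc 4 * (X / τ ^ 2 * wa) ≤ 4 * (X * X) := by gcongr
      _ = _ := by ring
  calc 2 * E * (20 * τ * (X / τ ^ 2) ^ 2 + 4 * (X / τ ^ 2 * wa))
      ≤ 2 * (w * L * E₁) * (20 * X ^ 2 + 4 * X ^ 2) := by
        have : E ≤ w * L * E₁ := hE.trans (by gcongr)
        gcongr
    _ = 48 * E₁ * (X ^ 2 * w * L) := by ring
    _ ≤ 48 * E₁ * (X ^ 2 * w * (τ * r) * L) := by
        have g3 : 1 ≤ τ * r := by nlinarith
        have g4 : 0 ≤ X ^ 2 * w * L := by positivity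
        have g2 : X ^ 2 * w * L ≤ X ^ 2 * w * (τ * r) * L := by nlinarith
        gcongr

/-- the second region -/
theorem we4 (hX : 1 ≤ X) (hτ : 1 ≤ τ) (hr : 1 ≤ r) (hr4 : r ^ 4 = τ) (hL : 1 ≤ L) (hw : 0 ≤ w)
    (hla0 : 0 ≤ la) (hla : la ≤ L) (hwa0 : 0 ≤ wa) (hwa : wa ≤ w / r ^ 3) :
    128 * X * (X * τ ^ 2) * (20 * (1 / τ) * (X / τ) + 4 * (1 / τ + la) * wa) ≤
      2560 * X ^ 3 + 1024 * (X ^ 2 * w * (τ * r) * L) := by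
  have hτ0 : 0 < τ := by linarith
  have hr0 : 0 < r := by linarith
  have f1 : 128 * X * (X * τ ^ 2) * (20 * (1 / τ) * (X / τ)) = 2560 * X ^ 3 := by
    field_simp
    ring
  have g0 : 1 / τ ≤ L := by
    rw [div_le_iff₀ hτ0]
    nlinarith
  have f2 : 128 * X * (X * τ ^ 2) * (4 * (1 / τ + la) * wa) ≤
      1024 * (X ^ 2 * w * (τ * r) * L) := by
    calc 128 * X * (X * τ ^ 2) * (4 * (1 / τ + la) * wa)
        ≤ 128 * X * (X * τ ^ 2) * (4 * (2 * L) * (w / r ^ 3)) := by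
          have g2 : 4 * (1 / τ + la) ≤ 4 * (2 * L) := by linarith
          gcongr
      _ = 1024 * (X ^ 2 * w * (τ * r) * L) := by
          subst hr4
          field_simp
          ring
  rw [mul_add, f1]
  linarith

theorem we5 (hX : 1 ≤ X) (hτ : 1 ≤ τ) (hr : 1 ≤ r) (hr4 : r ^ 4 = τ) (hL : 1 ≤ L) (hw : 0 ≤ w)
    (hc : 0 ≤ c₀) (hla0 : 0 ≤ la) (hla : la ≤ L) (hwa0 : 0 ≤ wa) (hwa : wa ≤ w / r ^ 3) :
    64 * c₀ * (X * τ ^ 2) * (8 * (1 / τ) * (X / τ) * wa + 2 * (1 / τ + la) * (X / τ * wa)) ≤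
      1024 * c₀ * (X ^ 2 * w * (τ * r) * L) := by
  have hτ0 : 0 < τ := by linarith
  have hr0 : 0 < r := by linarith
  have g0 : 1 / τ ≤ 1 := by
    rw [div_le_iff₀ hτ0]
    linarith
  calc 64 * c₀ * (X * τ ^ 2) * (8 * (1 / τ) * (X / τ) * wa + 2 * (1 / τ + la) * (X / τ * wa))
      ≤ 64 * c₀ * (X * τ ^ 2) * (8 * L * (X / τ) * (w / r ^ 3) +
      2 * (2 * L) * (X / τ * (w / r ^ 3))) := by
        have g2 : 1 / τ + la ≤ 2 * L := by linarith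
        have g3 : 1 / τ ≤ L := by linarith
        gcongr
    _ = 768 * c₀ * (X ^ 2 * w * r * L) := by
        subst hr4
        field_simp
        ring
    _ ≤ 1024 * c₀ * (X ^ 2 * w * (τ * r) * L) := by
        have g1 : r ≤ τ * r := by nlinarith
        gcongr
        norm_num

theorem we6 (hX : 1 ≤ X) (hτ : 1 ≤ τ) (hr : 1 ≤ r) (hL : 1 ≤ L) (hw : 0 ≤ w)
    (hs0 : 0 ≤ s) (hsw : s ≤ w) (hE0 : 0 ≤ E) (hE₁ : 0 ≤ E₁) (hE : E ≤ s * L * E₁) (hwa0 : 0 ≤ wa)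
    (hwa : wa ≤ X) :
    2 * E * (20 * (1 / τ) * (X / τ) ^ 2 + 4 * (X / τ * wa)) ≤
      48 * E₁ * (X ^ 2 * w * (τ * r) * L) := by
  have hτ0 : 0 < τ := by linarith
  have g1 : 20 * (1 / τ) * (X / τ) ^ 2 ≤ 20 * X ^ 2 := by
    have : 20 * (1 / τ) * (X / τ) ^ 2 = 20 * X ^ 2 / τ ^ 3 := by
      field_simp
    rw [this]
    exact div_le_self (by positivity) (one_le_pow₀ hτ)
  have g2 : 4 * (X / τ * wa) ≤ 4 * X ^ 2 := by
    have h4 : X / τ ≤ X := div_le_self (by positivity) hτ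
    calc 4 * (X / τ * wa) ≤ 4 * (X * X) := by gcongr
      _ = _ := by ring
  calc 2 * E * (20 * (1 / τ) * (X / τ) ^ 2 + 4 * (X / τ * wa))
      ≤ 2 * (w * L * E₁) * (20 * X ^ 2 + 4 * X ^ 2) := by
        have : E ≤ w * L * E₁ := hE.trans (by gcongr)
        gcongr
    _ = 48 * E₁ * (X ^ 2 * w * L) := by ring
    _ ≤ 48 * E₁ * (X ^ 2 * w * (τ * r) * L) := by
        have g3 : 1 ≤ τ * r := by nlinarith
        have g4 : 0 ≤ X ^ 2 * w * L := by positivity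
        have g2 : X ^ 2 * w * L ≤ X ^ 2 * w * (τ * r) * L := by nlinarith
        gcongr

end est

theorem wt_div {x y : ℝ} (hx : 0 ≤ x) (hy : 0 < y) : wt (x / y) = wt x / √(√y) ^ 3 := by
  obtain ⟨h0, h1, h2⟩ := wt_root (show 0 ≤ x / y by positivity)
  obtain ⟨-, -, k2⟩ := wt_root hx
  rw [h2, k2, Real.sqrt_div' _ hy.le, Real.sqrt_div' _ (Real.sqrt_nonneg y), div_pow]

theorem qc3 {D : ℝ} (hD0 : 1 ≤ D) (hD : RB D) {p₁ p₂ p₃ : ℤ} (hp₁ : p₁ ≠ 0) (hp₂ : p₂ ≠ 0)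
    (hp₃ : p₃ ≠ 0) :
    ∃ K₀ K₁ : ℝ, 0 ≤ K₀ ∧ 0 ≤ K₁ ∧
    ∀ (M : ℤ) (X τ : ℝ), 1 ≤ τ → τ ^ 2 ≤ X → ∀ T : Finset (ℤ × ℤ × ℤ × ℤ × ℤ),
    (∀ t ∈ T, t.1 ≠ 0) →
    (∀ t ∈ T, |(t.1 : ℝ)| ≤ X / τ ^ 2 ∧ |(t.2.1 : ℝ)| ≤ X / τ ∧
      |(t.2.2.1 : ℝ)| ≤ X ∧ |(t.2.2.2.1 : ℝ)| ≤ X * τ ∧
      |(t.2.2.2.2 : ℝ)| ≤ X * τ ^ 2 ∧
      p₁ * t.1 * t.2.2.2.2 + p₂ * t.2.1 * t.2.2.2.1 + p₃ * t.2.2.1 ^ 2 = M) →
    (T.card : ℝ) ≤ K₀ * X ^ 3 + K₁ * (X ^ 2 * wt X * (τ * √(√τ)) *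
      (1 + Real.log ((|(p₁ : ℝ)| + |(p₂ : ℝ)|) * X))) := by
  have habs : ∀ p : ℤ, p ≠ 0 → 1 ≤ |(p : ℝ)| := fun p hp => by
    rw [← Int.cast_abs]
    exact_mod_cast Int.one_le_abs hp
  have h1p := habs p₁ hp₁
  have h2p := habs p₂ hp₂
  obtain ⟨C₂, hC₂⟩ : ∃ C₂ : ℝ, C₂ = |(p₁ : ℝ)| + |(p₂ : ℝ)| := ⟨_, rfl⟩
  rw [← hC₂]
  have hC₂0 : 1 ≤ C₂ := by rw [hC₂]; linarith
  obtain ⟨K, hK⟩ : ∃ K : ℝ, K = D * |(p₃ : ℝ)| := ⟨_, rfl⟩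
  obtain ⟨c₀, hc₀⟩ : ∃ c₀ : ℝ, c₀ = |((p₁ * p₂ : ℤ) : ℝ)| := ⟨_, rfl⟩
  have hc₀' : |((p₂ * p₁ : ℤ) : ℝ)| = c₀ := by rw [hc₀, mul_comm]
  have hK0 : 0 ≤ K := by rw [hK]; positivity
  have hc₀0 : 0 ≤ c₀ := by rw [hc₀]; positivity
  obtain ⟨E₁, hE₁⟩ : ∃ E₁ : ℝ, E₁ = √((C₂ * (1 : ℕ) ^ 2 * |(p₃ : ℝ)| + 1) * (4 * C₂)) := ⟨_, rfl⟩
  have hE₁0 : 0 ≤ E₁ := by rw [hE₁]; exact Real.sqrt_nonneg _
  refine ⟨2 * (K * c₀ * 2560), 2 * (K * c₀ * (1024 + 1024 * c₀ + 48 * E₁)), by positivity,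
    by positivity, fun M X τ hτ hτX T hT0 hT => ?_⟩
  have hτ0 : 0 < τ := by linarith
  have hX1 : 1 ≤ X := by nlinarith
  have hX0 : 0 < X := by linarith
  obtain ⟨L, hL⟩ : ∃ L : ℝ, L = 1 + Real.log (C₂ * X) := ⟨_, rfl⟩
  have hCX : 1 ≤ C₂ * X := by nlinarith
  have hL1 : 1 ≤ L := by
    rw [hL]
    have := Real.log_nonneg hCX
    linarith
  have hEE : EE C₂ X 1 p₃ ≤ √X * L * E₁ := by
    rw [hL, hE₁]
    exact EE_le hC₂0 hX1 1 p₃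
  rw [← hL]
  obtain ⟨w1, w2, w3⟩ := wt_one_le hX1
  obtain ⟨r0, r4, -⟩ := wt_root hτ0.le
  have hr1 : 1 ≤ √(√τ) := Real.one_le_sqrt.2 (Real.one_le_sqrt.2 hτ)
  obtain ⟨r, hr⟩ : ∃ r : ℝ, r = √(√τ) := ⟨_, rfl⟩
  rw [← hr] at r0 r4 hr1 ⊢
  have hw0 : 0 ≤ wt X := wt_nn X
  have hs0 : 0 ≤ √X := Real.sqrt_nonneg X
  have hEE0 : 0 ≤ EE C₂ X 1 p₃ := Real.sqrt_nonneg _
  -- the first region
  obtain ⟨T₁, hT₁⟩ : ∃ T₁ : Finset (ℤ × ℤ × ℤ × ℤ × ℤ),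
    T₁ = T.filter fun t => |(t.2.1 : ℝ)| ≤ τ * |(t.1 : ℝ)| := ⟨_, rfl⟩
  obtain ⟨T₂, hT₂⟩ : ∃ T₂ : Finset (ℤ × ℤ × ℤ × ℤ × ℤ),
    T₂ = T.filter fun t => ¬ |(t.2.1 : ℝ)| ≤ τ * |(t.1 : ℝ)| := ⟨_, rfl⟩
  have hcard : T.card = T₁.card + T₂.card := by
    rw [hT₁, hT₂]
    exact (card_filter_add_card_filter_not _).symm
  have hτX' : τ ≤ X := by nlinarith
  have hα1 : 1 ≤ X / τ ^ 2 := by
    rw [le_div_iff₀ (by positivity)]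
    linarith
  have hβ1 : 1 ≤ X / τ := by
    rw [le_div_iff₀ (by positivity)]
    linarith
  have hY1 : X ≤ X * τ := by nlinarith
  have hY2 : X ≤ X * τ ^ 2 := by
    have : (1 : ℝ) ≤ τ ^ 2 := one_le_pow₀ hτ
    nlinarith
  have hXC : X ≤ C₂ * X := by nlinarith
  have hαX : X / τ ^ 2 ≤ X := div_le_self (by positivity) (one_le_pow₀ hτ)
  have hβX : X / τ ≤ X := div_le_self (by positivity) hτ
  have hlα : 1 + Real.log (X / τ ^ 2) ≤ L := by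
    rw [hL]
    have := Real.log_le_log (by linarith) (hαX.trans hXC)
    linarith
  have hlβ : 1 + Real.log (X / τ) ≤ L := by
    rw [hL]
    have := Real.log_le_log (by linarith) (hβX.trans hXC)
    linarith
  have hwα : wt (X / τ ^ 2) ≤ wt X / τ := by
    rw [wt_div hX0.le (by positivity), Real.sqrt_sq hτ0.le]
    apply div_le_div_of_nonneg_left hw0 hτ0
    have h1 : √τ ^ 2 = τ := Real.sq_sqrt hτ0.le
    have h2 : 1 ≤ √τ := Real.one_le_sqrt.2 hτ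
    calc τ = √τ ^ 2 := h1.symm
      _ ≤ √τ ^ 3 := pow_le_pow_right₀ h2 (by norm_num)
  have hwβ : wt (X / τ) ≤ wt X / r ^ 3 := by
    rw [wt_div hX0.le hτ0, ← hr]
  have hwα' : wt (X / τ ^ 2) ≤ X := (wt_one_le hα1).2.2.trans hαX
  have hwβ' : wt (X / τ) ≤ X := (wt_one_le hβ1).2.2.trans hβX
  have hc₀1 : |((p₁ * p₂ : ℤ) : ℝ)| = c₀ := hc₀.symm
  have b1 := reg3 hD0 hD (X := X) (Y := X * τ) (γ := X) (α := X / τ ^ 2) (ρ := τ) (C := C₂)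
    hp₁ hp₂ hp₃ hC₂0 hX1 (by positivity) hXC hα1 hτ0 (by
      calc |(p₁ : ℝ)| * (X / τ ^ 2) ≤ |(p₁ : ℝ)| * X := by gcongr
        _ ≤ C₂ * X := by
          rw [hC₂]
          gcongr
          linarith) hY1 T₁ (M := M) (by
      intro t ht
      rw [hT₁] at ht
      obtain ⟨ht1, ht2⟩ := mem_filter.1 ht
      obtain ⟨c1, c2, c3, c4, c5, c7⟩ := hT t ht1
      exact ⟨hT0 t ht1, c1, ht2, c3, c4, c7⟩)
  rw [← hK, hc₀1] at b1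
  -- the second region
  obtain ⟨sw, hsw⟩ : ∃ sw : ℤ × ℤ × ℤ × ℤ × ℤ → ℤ × ℤ × ℤ × ℤ × ℤ,
    sw = fun t => (t.2.1, t.1, t.2.2.1, t.2.2.2.2, t.2.2.2.1) := ⟨_, rfl⟩
  have hswc : ((T₂.image sw).card : ℝ) = T₂.card := by
    rw [card_image_of_injective]
    intro t t' h
    rw [hsw] at h
    simp only [Prod.mk.injEq] at h
    obtain ⟨d1, d2, d3, d4, d5⟩ := h
    exact Prod.ext d2 (Prod.ext d1 (Prod.ext d3 (Prod.ext d5 d4)))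
  have b2 := reg3 hD0 hD (X := X) (Y := X * τ ^ 2) (γ := X) (α := X / τ) (ρ := 1 / τ) (C := C₂)
    hp₂ hp₁ hp₃ hC₂0 hX1 (by positivity)
    hXC hβ1 (by positivity) (by
      calc |(p₂ : ℝ)| * (X / τ) ≤ |(p₂ : ℝ)| * X := by gcongr
        _ ≤ C₂ * X := by
          rw [hC₂]
          gcongr
          linarith) hY2 (T₂.image sw) (M := M) (by
      intro t ht
      obtain ⟨t', ht', rfl⟩ := mem_image.1 ht
      rw [hT₂] at ht'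
      obtain ⟨ht1, ht2⟩ := mem_filter.1 ht'
      obtain ⟨c1, c2, c3, c4, c5, c7⟩ := hT t' ht1
      push Not at ht2
      rw [hsw]
      simp only
      refine ⟨?_, c2, ?_, c3, c5, ?_⟩
      · intro h0
        rw [h0] at ht2
        simp only [Int.cast_zero, abs_zero] at ht2
        have : 0 ≤ τ * |(t'.1 : ℝ)| := by positivity
        linarith
      · rw [one_div, inv_mul_eq_div, le_div_iff₀ hτ0]
        linarith
      · linarith)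
  rw [← hK, hc₀', hswc] at b2
  -- the estimates
  have hlα0 : 0 ≤ 1 + Real.log (X / τ ^ 2) := by
    have := Real.log_nonneg hα1
    linarith
  have hlβ0 : 0 ≤ 1 + Real.log (X / τ) := by
    have := Real.log_nonneg hβ1
    linarith
  have e1 := we1 hX1 hτ hr1 hL1 hw0 hlα0 hlα (wt_nn _) hwα
  have e2 := we2 hX1 hτ hr1 hL1 hw0 hc₀0 hlα0 hlα (wt_nn _) hwα
  have e3 := we3 hX1 hτ hr1 hL1 hw0 hs0 w2 hEE0 hE₁0 hEE (wt_nn _) hwα'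
  have e4 := we4 hX1 hτ hr1 r4 hL1 hw0 hlβ0 hlβ (wt_nn _) hwβ
  have e5 := we5 hX1 hτ hr1 r4 hL1 hw0 hc₀0 hlβ0 hlβ (wt_nn _) hwβ
  have e6 := we6 hX1 hτ hr1 hL1 hw0 hs0 w2 hEE0 hE₁0 hEE (wt_nn _) hwβ'
  have hKc : 0 ≤ K * c₀ := mul_nonneg hK0 hc₀0
  have hsum1 : (T₁.card : ℝ) ≤ K * c₀ * (2560 * X ^ 3 +
      (1024 + 1024 * c₀ + 48 * E₁) * (X ^ 2 * wt X * (τ * r) * L)) := by
    refine b1.trans (mul_le_mul_of_nonneg_left ?_ hKc)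
    calc _ ≤ (2560 * X ^ 3 + 1024 * (X ^ 2 * wt X * (τ * r) * L)) +
          1024 * c₀ * (X ^ 2 * wt X * (τ * r) * L) +
          48 * E₁ * (X ^ 2 * wt X * (τ * r) * L) := add_le_add (add_le_add e1 e2) e3
      _ = _ := by ring
  have hsum2 : (T₂.card : ℝ) ≤ K * c₀ * (2560 * X ^ 3 +
      (1024 + 1024 * c₀ + 48 * E₁) * (X ^ 2 * wt X * (τ * r) * L)) := by
    refine b2.trans (mul_le_mul_of_nonneg_left ?_ hKc)
    calc _ ≤ (2560 * X ^ 3 + 1024 * (X ^ 2 * wt X * (τ * r) * L)) +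
          1024 * c₀ * (X ^ 2 * wt X * (τ * r) * L) +
          48 * E₁ * (X ^ 2 * wt X * (τ * r) * L) := add_le_add (add_le_add e4 e5) e6
      _ = _ := by ring
  have hfin : (T.card : ℝ) = T₁.card + T₂.card := by exact_mod_cast hcard
  rw [hfin]
  calc (T₁.card : ℝ) + T₂.card ≤ _ := add_le_add hsum1 hsum2
    _ = _ := by ring

end Pool.Agent.V7H54.W
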