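import Pool.Agent.V7H54.N.CnN
import Pool.Agent.V7H54.W.Qc

/-!
# The number of the indices with a quintuple, uniformly
-/

set_option autoImplicit false
set_option linter.all false

open scoped Real Classical
open Finset

namespace Pool.Agent.V7H54.W

open Pool.Agent.V7H54.A
open Pool.Agent.V7H54.N

/-- one pair `(P, r)` and one level -/
theorem cu1 (C₁ : ℕ) (hC₁ : 1 ≤ C₁) {P r : ℤ} (hP : P ≠ 0) (hr : 0 < r) :
    ∃ K₀ K₁ C₂ : ℝ, 0 ≤ K₀ ∧ 0 ≤ K₁ ∧ 1 ≤ C₂ ∧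
    ∀ (A : ℤ) (ι : Type) (R : ι → ℤ → ℤ → ℤ → ℤ → ℤ → Prop),
    (∀ i i' a b c d e, R i a b c d e → R i' a b c d e → i = i') →
    ∀ (B k : ℕ) (Y : Finset ι), (∀ y ∈ Y, BkI A C₁ B P r k R y) →
    (Y.card : ℝ) * 2 ^ k ≤ K₀ * (C₁ * B : ℝ) ^ 3 +
      K₁ * ((C₁ * B : ℝ) ^ 2 * wt (C₁ * B) * ((2 : ℝ) ^ k * √(√((2 : ℝ) ^ k))) *
      (1 + Real.log (C₂ * (C₁ * B)))) := by
  obtain ⟨D, hD0, hD⟩ := roots3
  obtain ⟨K₀, K₁, hK₀, hK₁, h⟩ := qc3 hD0 hD (p₁ := r) (p₂ := 2 * P) (p₃ := 3 * r)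
    hr.ne' (by positivity) (by positivity)
  obtain ⟨C₂, hC₂⟩ : ∃ C₂ : ℝ, C₂ = |((r : ℤ) : ℝ)| + |((2 * P : ℤ) : ℝ)| := ⟨_, rfl⟩
  rw [← hC₂] at h
  have hC₂1 : 1 ≤ C₂ := by
    have h1 : (1 : ℝ) ≤ |((r : ℤ) : ℝ)| := by
      rw [← Int.cast_abs]
      exact_mod_cast Int.one_le_abs hr.ne'
    have h2 : (0 : ℝ) ≤ |((2 * P : ℤ) : ℝ)| := abs_nonneg _
    rw [hC₂]
    linarith
  refine ⟨K₀, K₁, C₂, hK₀, hK₁, hC₂1, fun A ι R hR B k Y hY => ?_⟩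
  by_cases hY0 : Y = ∅
  · subst hY0
    rw [card_empty, Nat.cast_zero, zero_mul]
    by_cases hB : B = 0
    · subst hB
      simp [wt]
    have hB1 : (1 : ℝ) ≤ B := by exact_mod_cast Nat.one_le_iff_ne_zero.2 hB
    have hC1 : (1 : ℝ) ≤ C₁ := by exact_mod_cast hC₁
    have h1 : 1 ≤ C₂ * (C₁ * B) := by
      have : 1 ≤ (C₁ : ℝ) * B := one_le_mul_of_one_le_of_one_le hC1 hB1
      exact one_le_mul_of_one_le_of_one_le hC₂1 this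
    have h2 := Real.log_nonneg h1
    have h3 := wt_nn ((C₁ : ℝ) * B)
    positivity
  obtain ⟨t₀, ht₀⟩ := Finset.nonempty_iff_ne_empty.2 hY0
  have hτX := (hY t₀ ht₀).1
  have h2k : (1 : ℝ) ≤ (2 : ℝ) ^ k := one_le_pow₀ (by norm_num)
  -- choose
  have hch : ∀ t : ι, ∃ (a b : ℤ) (f : ℕ → ℤ × ℤ × ℤ), t ∈ Y → a ≠ 0 ∧ ∀ m : ℕ, m < 2 ^ k →
      CdI A C₁ B P r k R t a (b + 2 * r * m * a) (f m).1 (f m).2.1 (f m).2.2 := by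
    intro t
    by_cases ht : t ∈ Y
    · obtain ⟨-, a, b, ha, hb⟩ := hY t ht
      choose! c d e hc using hb
      exact ⟨a, b, fun m => (c m, d m, e m), fun _ => ⟨ha, hc⟩⟩
    · exact ⟨0, 0, fun _ => 0, fun h => absurd h ht⟩
  choose a b f hf using hch
  obtain ⟨G, hG⟩ : ∃ G : ι × ℕ → ℤ × ℤ × ℤ × ℤ × ℤ,
    G = fun x => (a x.1, b x.1 + 2 * r * x.2 * a x.1, (f x.1 x.2).1, (f x.1 x.2).2.1,
      (f x.1 x.2).2.2) := ⟨_, rfl⟩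
  have hGinj : Set.InjOn G ((Y ×ˢ range (2 ^ k) : Finset (ι × ℕ)) : Set (ι × ℕ)) := by
    rintro ⟨t, m⟩ hx ⟨t', m'⟩ hx' he
    rw [mem_coe, mem_product, mem_range] at hx hx'
    obtain ⟨ha, hb⟩ := hf t hx.1
    obtain ⟨ha', hb'⟩ := hf t' hx'.1
    have c1 := (hb m hx.2).2.2.2.2.2.2
    have c2 := (hb' m' hx'.2).2.2.2.2.2.2
    rw [hG] at he
    simp only [Prod.mk.injEq] at he
    obtain ⟨e1, e2, e3, e4, e5⟩ := he
    rw [e2, e3, e4, e5, e1] at c1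
    have htt : t = t' := hR _ _ _ _ _ _ _ c1 c2
    subst htt
    have hmm : (m : ℤ) = m' := by
      have h1 : 2 * r * (m : ℤ) * a t = 2 * r * (m' : ℤ) * a t := by linarith
      have h2 : (2 : ℤ) * r ≠ 0 := by positivity
      exact mul_left_cancel₀ h2 (mul_right_cancel₀ ha h1)
    rw [Nat.cast_inj] at hmm
    rw [hmm]
  obtain ⟨T, hT⟩ : ∃ T, T = (Y ×ˢ range (2 ^ k)).image G := ⟨_, rfl⟩
  have hTc : (T.card : ℝ) = (Y.card : ℝ) * 2 ^ k := by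
    rw [hT, card_image_of_injOn hGinj, card_product, card_range]
    push_cast
    ring
  have hTC : ∀ x ∈ T, x.1 ≠ 0 ∧ ∃ t : ι, CdI A C₁ B P r k R t x.1 x.2.1 x.2.2.1 x.2.2.2.1 x.2.2.2.2 := by
    intro x hx
    rw [hT] at hx
    obtain ⟨⟨t, m⟩, hx', rfl⟩ := mem_image.1 hx
    rw [mem_product, mem_range] at hx'
    rw [hG]
    exact ⟨(hf t hx'.1).1, t, (hf t hx'.1).2 m hx'.2⟩
  rw [← hTc]
  exact h (-(A * r * P ^ 2)) (C₁ * B) ((2 : ℝ) ^ k) h2k hτX T (fun x hx => (hTC x hx).1) (fun x hx => by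
    obtain ⟨t, a1, a2, a3, a4, a5, a6, a7⟩ := (hTC x hx).2
    exact ⟨a1, a2, a3, a4, a5, by linarith⟩)

/-- a small factor -/
theorem log_small3 (C₂ K : ℝ) (hC₂ : 1 ≤ C₂) (hK : 0 ≤ K) : ∃ X₀ : ℝ, ∀ X ≥ X₀, 1 ≤ X →
    K * (1 + Real.log (C₂ * X)) ^ 2 ≤ √(√(√X)) := by
  obtain ⟨X₀, h⟩ := log_small C₂ (4 * K) hC₂ (by positivity)
  refine ⟨X₀ ^ 2 + 1, fun X hX hX1 => ?_⟩
  have hX0 : 0 ≤ X := by linarith
  have h1 : 1 ≤ √X := Real.one_le_sqrt.2 hX1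
  have h2 : X₀ ≤ √X := by
    refine Real.le_sqrt_of_sq_le ?_
    linarith
  have h3 := h (√X) h2 h1
  refine le_trans ?_ h3
  have h4 : √X * √X = X := Real.mul_self_sqrt hX0
  have hC0 : 0 < C₂ := by linarith
  have h5 : Real.log (C₂ * X) ≤ 2 * Real.log (C₂ * √X) := by
    have e : Real.log ((C₂ * √X) ^ 2) = 2 * Real.log (C₂ * √X) := by
      rw [Real.log_pow]
      norm_num
    rw [← e]
    apply Real.log_le_log (by positivity)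
    calc C₂ * X = C₂ * 1 * (√X * √X) := by rw [h4]; ring
      _ ≤ C₂ * C₂ * (√X * √X) := by gcongr
      _ = _ := by ring
  have h6 : 0 ≤ Real.log (C₂ * X) := Real.log_nonneg (one_le_mul_of_one_le_of_one_le hC₂ hX1)
  have h7 : 1 + Real.log (C₂ * X) ≤ 2 * (1 + Real.log (C₂ * √X)) := by linarith
  calc K * (1 + Real.log (C₂ * X)) ^ 2 ≤ K * (2 * (1 + Real.log (C₂ * √X))) ^ 2 := by gcongr
    _ = _ := by ring

/-- **Few indices, uniformly.** -/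
theorem cu (C₁ : ℕ) (hC₁ : 1 ≤ C₁) : ∃ K : ℝ, 0 ≤ K ∧ ∃ B₀ : ℕ,
    ∀ (A : ℤ) (ι : Type) (R : ℤ → ℤ → ι → ℤ → ℤ → ℤ → ℤ → ℤ → Prop),
    (∀ P r : ℤ, (P, r) ∈ Pr C₁ → ∀ i i' a b c d e, R P r i a b c d e → R P r i' a b c d e → i = i') →
    ∀ B ≥ B₀, ∀ Y : Finset ι, (∀ y ∈ Y, ∃ P r : ℤ, (P, r) ∈ Pr C₁ ∧ ∃ k : ℕ,
      BkI A C₁ B P r k (R P r) y) → (Y.card : ℝ) ≤ K * (B : ℝ) ^ 3 := by
  have hPr : ∀ x ∈ Pr C₁, x.1 ≠ 0 ∧ 0 < x.2 ∧ |x.1| ≤ C₁ ∧ x.2 ≤ C₁ := by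
    intro x hx
    obtain ⟨h1, h2, -⟩ := mem_filter.1 hx
    obtain ⟨h3, h4⟩ := mem_product.1 h1
    rw [mem_Icc] at h3 h4
    exact ⟨h2, by omega, abs_le.2 h3, h4.2⟩
  have hch : ∀ x : ℤ × ℤ, ∃ K₀ K₁ C₂ : ℝ, 0 ≤ K₀ ∧ 0 ≤ K₁ ∧ 1 ≤ C₂ ∧ (x ∈ Pr C₁ →
    ∀ (A : ℤ) (ι : Type) (R : ι → ℤ → ℤ → ℤ → ℤ → ℤ → Prop),
    (∀ i i' a b c d e, R i a b c d e → R i' a b c d e → i = i') →
    ∀ (B k : ℕ) (Y : Finset ι), (∀ y ∈ Y, BkI A C₁ B x.1 x.2 k R y) →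
    (Y.card : ℝ) * 2 ^ k ≤ K₀ * (C₁ * B : ℝ) ^ 3 +
      K₁ * ((C₁ * B : ℝ) ^ 2 * wt (C₁ * B) * ((2 : ℝ) ^ k * √(√((2 : ℝ) ^ k))) *
      (1 + Real.log (C₂ * (C₁ * B))))) := by
    intro x
    by_cases hx : x ∈ Pr C₁
    · obtain ⟨h1, h2, h3, h4⟩ := hPr x hx
      obtain ⟨K₀, K₁, C₂, a1, a2, a3, a4⟩ := cu1 C₁ hC₁ h1 h2
      exact ⟨K₀, K₁, C₂, a1, a2, a3, fun _ => a4⟩
    · exact ⟨0, 0, 1, le_rfl, le_rfl, le_rfl, fun h => absurd h hx⟩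
  choose K₀ K₁ C₂ hK₀ hK₁ hC₂ hmain using hch
  have hC1 : (1 : ℝ) ≤ C₁ := by exact_mod_cast hC₁
  refine ⟨∑ x ∈ Pr C₁, (2 * K₀ x + 1) * (C₁ : ℝ) ^ 3, sum_nonneg fun x _ => by
    have := hK₀ x
    positivity, ?_⟩
  have hch2 : ∀ x : ℤ × ℤ, ∃ X₀ : ℝ, (∀ X ≥ X₀, 1 ≤ X →
      K₁ x * (1 + Real.log (C₂ x * X)) ^ 2 ≤ √(√(√X))) := fun x =>
    log_small3 (C₂ x) (K₁ x) (hC₂ x) (hK₁ x)
  choose X₀ hX₀ using hch2
  refine ⟨1 + ∑ x ∈ Pr C₁, ⌈X₀ x⌉₊, fun A ι R hR B hB Y hY => ?_⟩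
  have hB1 : 1 ≤ B := le_trans (Nat.le_add_right _ _) hB
  have hB1' : (1 : ℝ) ≤ B := by exact_mod_cast hB1
  obtain ⟨X, hX⟩ : ∃ X : ℝ, X = C₁ * B := ⟨_, rfl⟩
  have hX1 : 1 ≤ X := by rw [hX]; exact one_le_mul_of_one_le_of_one_le hC1 hB1'
  have hX0 : 0 < X := by linarith
  have hXx : ∀ x ∈ Pr C₁, X₀ x ≤ X := by
    intro x hx
    have h1 : ⌈X₀ x⌉₊ ≤ ∑ x ∈ Pr C₁, ⌈X₀ x⌉₊ :=
      Finset.single_le_sum (f := fun x => ⌈X₀ x⌉₊) (fun _ _ => Nat.zero_le _) hx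
    have h2 : ⌈X₀ x⌉₊ ≤ B := by omega
    have h3 : (⌈X₀ x⌉₊ : ℝ) ≤ B := by exact_mod_cast h2
    have h4 : (B : ℝ) ≤ X := by rw [hX]; nlinarith
    exact (Nat.le_ceil _).trans (h3.trans h4)
  obtain ⟨M, hM⟩ : ∃ M : ℕ, M = ⌊Real.log X⌋₊ := ⟨_, rfl⟩
  have hlogX : 0 ≤ Real.log X := Real.log_nonneg hX1
  have hMle : (M : ℝ) ≤ Real.log X := by rw [hM]; exact Nat.floor_le hlogX
  have hkM : ∀ k : ℕ, ((2 : ℝ) ^ k) ^ 2 ≤ X → k ∈ range (M + 1) := by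
    intro k hk
    rw [mem_range, Nat.lt_succ_iff, hM]
    apply Nat.le_floor
    have h1 := Real.log_le_log (by positivity) hk
    rw [Real.log_pow, Real.log_pow] at h1
    push_cast at h1
    have h2 := Real.log_two_gt_d9
    have hk0 : (0 : ℝ) ≤ k := by positivity
    nlinarith
  -- the cover
  have hcov : Y ⊆ (Pr C₁).biUnion fun x => (range (M + 1)).biUnion fun k =>
      Y.filter fun t => BkI A C₁ B x.1 x.2 k (R x.1 x.2) t := by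
    intro t ht
    obtain ⟨P, r, hPr', k, hk⟩ := hY t ht
    refine mem_biUnion.2 ⟨(P, r), hPr', mem_biUnion.2 ⟨k, ?_, mem_filter.2 ⟨ht, hk⟩⟩⟩
    apply hkM
    rw [hX]
    exact hk.1
  have hcard : (Y.card : ℝ) ≤ ∑ x ∈ Pr C₁, ∑ k ∈ range (M + 1),
      ((Y.filter fun t => BkI A C₁ B x.1 x.2 k (R x.1 x.2) t).card : ℝ) := by
    have h1 := (card_le_card hcov).trans (card_biUnion_le.trans
      (sum_le_sum fun x _ => card_biUnion_le))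
    exact_mod_cast h1
  refine hcard.trans ?_
  rw [sum_mul]
  refine sum_le_sum fun x hx => ?_
  obtain ⟨L, hL⟩ : ∃ L : ℝ, L = 1 + Real.log (C₂ x * X) := ⟨_, rfl⟩
  have hC₂x := hC₂ x
  have hML : (M : ℝ) + 1 ≤ L := by
    rw [hL]
    have : Real.log X ≤ Real.log (C₂ x * X) := Real.log_le_log hX0 (by nlinarith)
    linarith
  have hL0 : 0 ≤ L := by
    have : (0 : ℝ) ≤ M := by positivity
    linarith
  -- one level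
  have hlev : ∀ k ∈ range (M + 1), ((Y.filter fun t => BkI A C₁ B x.1 x.2 k (R x.1 x.2) t).card : ℝ) ≤
      K₀ x * X ^ 3 * (1 / 2) ^ k + K₁ x * (X ^ 2 * wt X * √(√(√X)) * L) := by
    intro k hk
    by_cases hkX : ((2 : ℝ) ^ k) ^ 2 ≤ X
    · have h1 := hmain x hx A ι (R x.1 x.2) (hR x.1 x.2 hx) B k
        (Y.filter fun t => BkI A C₁ B x.1 x.2 k (R x.1 x.2) t)
        (fun t ht => (mem_filter.1 ht).2)
      rw [← hX, ← hL] at h1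
      have h2 : (0 : ℝ) < 2 ^ k := by positivity
      have h3 : √(√((2 : ℝ) ^ k)) ≤ √(√(√X)) :=
        Real.sqrt_le_sqrt (Real.sqrt_le_sqrt (Real.le_sqrt_of_sq_le hkX))
      have hwX := wt_nn X
      have hK₁x := hK₁ x
      have hK₀x := hK₀ x
      refine le_of_mul_le_mul_right (h1.trans ?_) h2
      have e1 : K₀ x * X ^ 3 + K₁ x * (X ^ 2 * wt X * ((2 : ℝ) ^ k * √(√((2 : ℝ) ^ k))) * L) =
          (K₀ x * X ^ 3 * (1 / 2) ^ k + K₁ x * (X ^ 2 * wt X * √(√((2 : ℝ) ^ k)) * L)) * 2 ^ k := by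
        rw [one_div, inv_pow]
        field_simp
      rw [e1]
      gcongr
    · have : (Y.filter fun t => BkI A C₁ B x.1 x.2 k (R x.1 x.2) t) = ∅ := by
        refine filter_eq_empty_iff.2 fun t _ h => hkX ?_
        rw [hX]
        exact h.1
      rw [this, card_empty, Nat.cast_zero]
      have hK₁x := hK₁ x
      have hK₀x := hK₀ x
      have hwX := wt_nn X
      positivity
  have hgeo : ∑ k ∈ range (M + 1), ((1 : ℝ) / 2) ^ k ≤ 2 := by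
    have h1 := Summable.sum_le_tsum (range (M + 1)) (fun k _ => by positivity)
      (summable_geometric_of_lt_one (r := (1 : ℝ) / 2) (by norm_num) (by norm_num))
    rw [tsum_geometric_of_lt_one (by norm_num) (by norm_num)] at h1
    norm_num at h1 ⊢
    exact h1
  have hK₁x := hK₁ x
  have hK₀x := hK₀ x
  have hsmall := hX₀ x X (hXx x hx) hX1
  rw [← hL] at hsmall
  have hwX := wt_nn X
  obtain ⟨q0, q4, q3⟩ := wt_root hX0.le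
  obtain ⟨q, hq⟩ : ∃ q : ℝ, q = √(√X) := ⟨_, rfl⟩
  have hqs : √q * √q = q := Real.mul_self_sqrt (by rw [hq]; exact q0)
  rw [← hq] at q0 q4 q3 hsmall
  rw [← hq] at hlev
  have herr : (M + 1 : ℝ) * (K₁ x * (X ^ 2 * wt X * √q * L)) ≤ X ^ 3 := by
    calc (M + 1 : ℝ) * (K₁ x * (X ^ 2 * wt X * √q * L))
        ≤ L * (K₁ x * (X ^ 2 * wt X * √q * L)) := by gcongr
      _ = X ^ 2 * wt X * √q * (K₁ x * L ^ 2) := by ring
      _ ≤ X ^ 2 * wt X * √q * √q := by gcongr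
      _ = X ^ 2 * wt X * (√q * √q) := by ring
      _ = X ^ 2 * (q ^ 3 * q) := by rw [hqs, q3]; ring
      _ = X ^ 2 * q ^ 4 := by ring
      _ = X ^ 3 := by rw [q4]; ring
  calc ∑ k ∈ range (M + 1), ((Y.filter fun t => BkI A C₁ B x.1 x.2 k (R x.1 x.2) t).card : ℝ)
      ≤ ∑ k ∈ range (M + 1), (K₀ x * X ^ 3 * (1 / 2) ^ k +
          K₁ x * (X ^ 2 * wt X * √q * L)) := sum_le_sum hlev
    _ = K₀ x * X ^ 3 * ∑ k ∈ range (M + 1), (1 / 2 : ℝ) ^ k +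
          (M + 1 : ℝ) * (K₁ x * (X ^ 2 * wt X * √q * L)) := by
        rw [sum_add_distrib, ← mul_sum, sum_const, card_range, nsmul_eq_mul]
        push_cast
        ring
    _ ≤ K₀ x * X ^ 3 * 2 + X ^ 3 := by gcongr
    _ = (2 * K₀ x + 1) * (C₁ : ℝ) ^ 3 * (B : ℝ) ^ 3 := by
        rw [hX]
        ring

end Pool.Agent.V7H54.W
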