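import Pool.Agent.V7H54.W.Fn

/-!
# The slices of the family of all elliptic curves over the rationals
-/

set_option autoImplicit false
set_option linter.all false

open Finset
open scoped Classical

namespace Pool.Agent.V7H54.W

open Pool.Agent.V7H54.M

/-- The family of the problem. -/
def IsFam (A B : ℤ) : Prop :=
  4 * A ^ 3 + 27 * B ^ 2 ≠ 0 ∧ ¬ ∃ p : ℕ, p.Prime ∧ (p : ℤ) ^ 4 ∣ A ∧ (p : ℤ) ^ 6 ∣ B

theorem sum_six (N : ℕ) (hN : 1 ≤ N) : ∑ d ∈ Icc 2 N, (1 : ℝ) / (d : ℝ) ^ 6 ≤ (1 / 16) * (1 - 1 / N) := by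
  induction N, hN using Nat.le_induction with
  | base => simp
  | succ n hn ih =>
    rw [sum_Icc_succ_top (by omega)]
    have hn0 : (1 : ℝ) ≤ n := by exact_mod_cast hn
    have h1 : (1 : ℝ) / ((n + 1 : ℕ) : ℝ) ^ 6 ≤ (1 / 16) * (1 / n - 1 / ((n + 1 : ℕ) : ℝ)) := by
      push_cast
      obtain ⟨x, hx⟩ : ∃ x : ℝ, x = n := ⟨_, rfl⟩
      rw [← hx] at hn0 ⊢
      have e : 1 / x - 1 / (x + 1) = 1 / (x * (x + 1)) := by
        field_simp
        ring
      rw [e, one_div_mul_one_div]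
      apply one_div_le_one_div_of_le (by positivity)
      have h2 : (16 : ℝ) ≤ (x + 1) ^ 4 := by
        have : (2 : ℝ) ^ 4 ≤ (x + 1) ^ 4 := pow_le_pow_left₀ (by norm_num) (by linarith) 4
        linarith
      calc 16 * (x * (x + 1)) ≤ (x + 1) ^ 4 * ((x + 1) * (x + 1)) := by
            gcongr
            linarith
        _ = (x + 1) ^ 6 := by ring
    linarith

theorem count_dvd (N d : ℕ) (hd : 0 < d) :
    (((Icc 1 (N : ℤ)).filter fun B => ((d : ℤ) ∣ B)).card : ℝ) ≤ N / d := by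
  have hd0 : (0 : ℝ) < d := by exact_mod_cast hd
  have h1 : ((Icc 1 (N : ℤ)).filter fun B => ((d : ℤ) ∣ B)).card ≤ (Icc 1 (N / d)).card := by
    refine card_le_card_of_injOn (fun B => (B / (d : ℤ)).toNat) ?_ ?_
    · intro B hB
      rw [mem_coe, mem_filter, mem_Icc] at hB
      obtain ⟨⟨h1, h2⟩, k, hk⟩ := hB
      have hdz : (d : ℤ) ≠ 0 := by exact_mod_cast hd.ne'
      rw [mem_coe, mem_Icc]
      have e : B / (d : ℤ) = k := by rw [hk]; exact Int.mul_ediv_cancel_left _ hdz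
      simp only [e]
      have hk0 : 0 < k := by
        have h3 : (0 : ℤ) < d * k := by rw [← hk]; omega
        exact pos_of_mul_pos_right h3 (by positivity)
      refine ⟨by omega, ?_⟩
      rw [Nat.le_div_iff_mul_le hd]
      have h4 : ((k.toNat * d : ℕ) : ℤ) ≤ (N : ℤ) := by
        push_cast
        rw [Int.toNat_of_nonneg hk0.le]
        linarith
      exact_mod_cast h4
    · intro B hB B' hB' h
      rw [mem_coe, mem_filter, mem_Icc] at hB hB'
      obtain ⟨⟨h1, h2⟩, k, hk⟩ := hB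
      obtain ⟨⟨h1', h2'⟩, k', hk'⟩ := hB'
      have hdz : (d : ℤ) ≠ 0 := by exact_mod_cast hd.ne'
      have e : B / (d : ℤ) = k := by rw [hk]; exact Int.mul_ediv_cancel_left _ hdz
      have e' : B' / (d : ℤ) = k' := by rw [hk']; exact Int.mul_ediv_cancel_left _ hdz
      have hk0 : 0 < k := by
        have h3 : (0 : ℤ) < d * k := by rw [← hk]; omega
        exact pos_of_mul_pos_right h3 (by positivity)
      have hk0' : 0 < k' := by
        have h3 : (0 : ℤ) < d * k' := by rw [← hk']; omega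
        exact pos_of_mul_pos_right h3 (by positivity)
      simp only [e, e'] at h
      rw [hk, hk']
      have : k = k' := by omega
      rw [this]
  rw [Nat.card_Icc] at h1
  have h2 : (((Icc 1 (N : ℤ)).filter fun B => ((d : ℤ) ∣ B)).card : ℝ) ≤ ((N / d : ℕ) : ℝ) := by
    rw [Nat.add_sub_cancel] at h1
    exact_mod_cast h1
  exact h2.trans Nat.cast_div_le

theorem fam_one (A : ℤ) : IsFam A 1 := by
  constructor
  · intro h
    omega
  · rintro ⟨p, hp, -, h⟩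
    have h1 := Int.le_of_dvd (by norm_num) h
    have h2 : (2 : ℤ) ≤ p := by exact_mod_cast hp.two_le
    have h3 : (2 : ℤ) ^ 6 ≤ (p : ℤ) ^ 6 := pow_le_pow_left₀ (by norm_num) h2 6
    omega

/-- many `B` -/
theorem count_fam (A : ℤ) (N : ℕ) (hN : 1 ≤ N) :
    (N : ℝ) / 4 ≤ ((Icc 1 (N : ℤ)).filter fun B => IsFam A B).card := by
  rcases Nat.eq_or_lt_of_le hN with h1 | h1
  · have h2 : (1 : ℤ) ∈ (Icc 1 (N : ℤ)).filter fun B => IsFam A B := by
      rw [mem_filter, mem_Icc]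
      exact ⟨⟨le_rfl, by omega⟩, fam_one A⟩
    have h3 : (1 : ℝ) ≤ ((Icc 1 (N : ℤ)).filter fun B => IsFam A B).card := by
      exact_mod_cast card_pos.2 ⟨_, h2⟩
    rw [← h1] at h3 ⊢
    push_cast at h3 ⊢
    linarith
  have hN2 : (2 : ℝ) ≤ N := by exact_mod_cast h1
  -- the bad ones
  obtain ⟨Z, hZ⟩ : ∃ Z : Finset ℤ, Z = (Icc 1 (N : ℤ)).filter fun B => 4 * A ^ 3 + 27 * B ^ 2 = 0 :=
    ⟨_, rfl⟩
  have hZc : Z.card ≤ 1 := by
    rw [card_le_one]
    intro x hx y hy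
    rw [hZ, mem_filter, mem_Icc] at hx hy
    have h2 : (x - y) * (x + y) = 0 := by
      have := hx.2
      have := hy.2
      nlinarith
    rcases mul_eq_zero.1 h2 with h3 | h3
    · omega
    · omega
  obtain ⟨Bd, hBd⟩ : ∃ Bd : Finset ℤ, Bd = (Icc 2 N).biUnion fun d =>
      (Icc 1 (N : ℤ)).filter fun B => (((d ^ 6 : ℕ) : ℤ) ∣ B) := ⟨_, rfl⟩
  have hBc : (Bd.card : ℝ) ≤ N / 16 := by
    have h2 : (Bd.card : ℝ) ≤ ∑ d ∈ Icc 2 N,
        (((Icc 1 (N : ℤ)).filter fun B => (((d ^ 6 : ℕ) : ℤ) ∣ B)).card : ℝ) := by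
      rw [hBd]
      exact_mod_cast card_biUnion_le
    refine h2.trans ?_
    calc ∑ d ∈ Icc 2 N, (((Icc 1 (N : ℤ)).filter fun B => (((d ^ 6 : ℕ) : ℤ) ∣ B)).card : ℝ)
        ≤ ∑ d ∈ Icc 2 N, (N : ℝ) * (1 / (d : ℝ) ^ 6) := by
          refine sum_le_sum fun d hd => ?_
          have hd0 : 0 < d := by
            have := (mem_Icc.1 hd).1
            omega
          refine (count_dvd N (d ^ 6) (by positivity)).trans (le_of_eq ?_)
          push_cast
          ring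
      _ = N * ∑ d ∈ Icc 2 N, (1 : ℝ) / (d : ℝ) ^ 6 := by rw [mul_sum]
      _ ≤ N * ((1 / 16) * (1 - 1 / N)) := by
          gcongr
          exact sum_six N hN
      _ ≤ N / 16 := by
          have : 0 ≤ 1 / (N : ℝ) := by positivity
          nlinarith
  have hcov : Icc 1 (N : ℤ) ⊆ ((Icc 1 (N : ℤ)).filter fun B => IsFam A B) ∪ (Z ∪ Bd) := by
    intro B hB
    rw [mem_union, mem_union]
    by_cases h2 : IsFam A B
    · exact Or.inl (mem_filter.2 ⟨hB, h2⟩)
    · right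
      by_cases h3 : 4 * A ^ 3 + 27 * B ^ 2 = 0
      · left
        rw [hZ]
        exact mem_filter.2 ⟨hB, h3⟩
      · right
        have h4 : ∃ p : ℕ, p.Prime ∧ (p : ℤ) ^ 4 ∣ A ∧ (p : ℤ) ^ 6 ∣ B := by
          by_contra h5
          exact h2 ⟨h3, h5⟩
        obtain ⟨p, hp, -, hpB⟩ := h4
        rw [hBd, mem_biUnion]
        have hB' := mem_Icc.1 hB
        refine ⟨p, mem_Icc.2 ⟨hp.two_le, ?_⟩, mem_filter.2 ⟨hB, by push_cast; exact hpB⟩⟩
        have h6 := Int.le_of_dvd (by omega) hpB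
        have h7 : (p : ℤ) ≤ (p : ℤ) ^ 6 := by
          have : (1 : ℤ) ≤ p := by exact_mod_cast hp.one_lt.le
          calc (p : ℤ) = (p : ℤ) ^ 1 := by ring
            _ ≤ (p : ℤ) ^ 6 := pow_le_pow_right₀ this (by norm_num)
        have h8 : (p : ℤ) ≤ N := by linarith [hB'.2]
        exact_mod_cast h8
  have h2 := (card_le_card hcov).trans ((card_union_le _ _).trans (add_le_add le_rfl (card_union_le _ _)))
  rw [Int.card_Icc] at h2
  have h3 : ((N : ℤ) + 1 - 1).toNat = N := by omega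
  rw [h3] at h2
  have h4 : (N : ℝ) ≤ ((Icc 1 (N : ℤ)).filter fun B => IsFam A B).card + (Z.card + Bd.card) := by
    exact_mod_cast h2
  have h5 : (Z.card : ℝ) ≤ 1 := by exact_mod_cast hZc
  linarith

/-- The discriminant. -/
theorem delta_zero (A B : ℤ) : (cv 0 A B).Δ ≠ 0 ↔ 4 * A ^ 3 + 27 * B ^ 2 ≠ 0 := by
  have e : (cv 0 A B).Δ = ((-16 * (4 * A ^ 3 + 27 * B ^ 2) : ℤ) : ℚ) := by
    simp only [WeierstrassCurve.Δ, WeierstrassCurve.b₂, WeierstrassCurve.b₄, WeierstrassCurve.b₆,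
      WeierstrassCurve.b₈, cv]
    push_cast
    ring
  rw [e]
  constructor
  · intro h h0
    apply h
    rw [h0]
    simp
  · intro h h0
    apply h
    have h1 : (-16 * (4 * A ^ 3 + 27 * B ^ 2) : ℤ) = 0 := by exact_mod_cast h0
    omega

/-- one slice -/
noncomputable def slice (X : ℕ) (A : ℤ) : Finset ℤ :=
  (Icc (-(X : ℤ)) X).filter fun B => IsFam A B ∧ 27 * B ^ 2 ≤ X

theorem slice_u : ∃ C : ℝ, 0 ≤ C ∧ ∀ (X : ℕ) (A : ℤ), 4 * |A| ^ 3 ≤ X →
    ∑ B ∈ slice X A, (2 : ℝ) ^ Module.finrank ℤ (cv 0 A B).Point ≤ C * (slice X A).card := by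
  obtain ⟨C, hC, h⟩ := gen_u
  refine ⟨28 * C, by positivity, fun X A hA => ?_⟩
  by_cases hne : slice X A = ∅
  · rw [hne]
    simp
  have hcard1 : (1 : ℝ) ≤ (slice X A).card := by
    exact_mod_cast card_pos.2 (nonempty_iff_ne_empty.2 hne)
  obtain ⟨N, hN⟩ : ∃ N : ℕ, N = Nat.sqrt (X / 27) := ⟨_, rfl⟩
  have hmem : ∀ B ∈ slice X A, |B| ≤ (N : ℤ) ∧ IsFam A B := by
    intro B hB
    unfold slice at hB
    rw [mem_filter] at hB
    obtain ⟨-, h1, h2⟩ := hB
    refine ⟨?_, h1⟩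
    have h3 : B.natAbs ≤ N := by
      rw [hN, Nat.le_sqrt, Nat.le_div_iff_mul_le (by norm_num)]
      have h4 : ((B.natAbs * B.natAbs * 27 : ℕ) : ℤ) ≤ (X : ℤ) := by
        push_cast
        rw [← abs_mul, abs_mul_self]
        linarith
      exact_mod_cast h4
    rw [Int.abs_eq_natAbs]
    exact_mod_cast h3
  have hX : X < 27 * (N + 1) ^ 2 := by
    have h1 := Nat.lt_succ_sqrt (X / 27)
    rw [← hN] at h1
    simp only [Nat.succ_eq_add_one] at h1
    have h2 : X < 27 * (X / 27 + 1) := by omega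
    have h3 : X / 27 + 1 ≤ (N + 1) * (N + 1) := h1
    calc X < 27 * (X / 27 + 1) := h2
      _ ≤ 27 * ((N + 1) * (N + 1)) := by gcongr
      _ = _ := by ring
  have hA3 : |(A : ℝ)| ^ 3 ≤ 27 / 4 * ((N : ℝ) + 1) ^ 2 := by
    have h1 : (4 : ℝ) * |(A : ℝ)| ^ 3 ≤ X := by exact_mod_cast hA
    have h2 : (X : ℝ) ≤ 27 * ((N : ℝ) + 1) ^ 2 := by exact_mod_cast hX.le
    linarith
  obtain ⟨M, hM⟩ : ∃ M : ℝ, M = max (N : ℝ) 1 := ⟨_, rfl⟩
  have hM1 : 1 ≤ M := by rw [hM]; exact le_max_right _ _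
  have hNM : (N : ℝ) ≤ M := by rw [hM]; exact le_max_left _ _
  have hsq : √(|(A : ℝ)| ^ 3) ≤ 6 * M := by
    rw [Real.sqrt_le_left (by positivity)]
    calc |(A : ℝ)| ^ 3 ≤ 27 / 4 * ((N : ℝ) + 1) ^ 2 := hA3
      _ ≤ 27 / 4 * (M + M) ^ 2 := by gcongr
      _ = 27 * M ^ 2 := by ring
      _ ≤ (6 * M) ^ 2 := by nlinarith [sq_nonneg M]
  have hsum := h 0 A M hM1 (slice X A) (by
    intro B hB
    obtain ⟨h1, h2⟩ := hmem B hB
    refine ⟨?_, (delta_zero A B).2 h2.1⟩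
    have h3 : |(B : ℝ)| ≤ N := by exact_mod_cast h1
    exact h3.trans hNM)
  have hMc : M ≤ 4 * (slice X A).card := by
    rcases Nat.eq_zero_or_pos N with h0 | h0
    · have h1 : M = 1 := by
        rw [hM, h0]
        simp
      rw [h1]
      linarith
    · have h1 : M = N := by
        rw [hM, max_eq_left]
        exact_mod_cast h0
      rw [h1]
      have h2 := count_fam A N h0
      have h3 : ((Icc 1 (N : ℤ)).filter fun B => IsFam A B) ⊆ slice X A := by
        intro B hB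
        rw [mem_filter, mem_Icc] at hB
        obtain ⟨⟨h4, h5⟩, h6⟩ := hB
        have h7 : N * N ≤ X / 27 := by
          rw [hN]
          exact Nat.sqrt_le _
        have h8 : N * N * 27 ≤ X := (Nat.le_div_iff_mul_le (by norm_num)).1 h7
        have h9 : 27 * B ^ 2 ≤ X := by
          have h10 : B ^ 2 ≤ (N : ℤ) ^ 2 := pow_le_pow_left₀ (by omega) h5 2
          have h11 : (N : ℤ) * N * 27 ≤ X := by exact_mod_cast h8
          nlinarith
        unfold slice
        rw [mem_filter, mem_Icc]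
        refine ⟨⟨by omega, ?_⟩, h6, h9⟩
        nlinarith
      have h4 : (((Icc 1 (N : ℤ)).filter fun B => IsFam A B).card : ℝ) ≤ (slice X A).card := by
        exact_mod_cast card_le_card h3
      linarith
  calc _ ≤ C * (M + |((0 : ℤ) : ℝ)| ^ 3 + √(|(A : ℝ)| ^ 3)) := hsum
    _ ≤ C * (M + 0 + 6 * M) := by
        have e : |((0 : ℤ) : ℝ)| ^ 3 = 0 := by simp
        rw [e]
        gcongr
    _ = C * (7 * M) := by ring
    _ ≤ C * (7 * (4 * (slice X A).card)) := by gcongr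
    _ = _ := by ring

/-- the slice is not small -/
theorem slice_card (X : ℕ) (A : ℤ) (hX27 : 27 ≤ X) : √(X : ℝ) ≤ 42 * (slice X A).card := by
  obtain ⟨N, hN⟩ : ∃ N : ℕ, N = Nat.sqrt (X / 27) := ⟨_, rfl⟩
  have hN1 : 1 ≤ N := by
    rw [hN, Nat.le_sqrt]
    omega
  have hN1' : (1 : ℝ) ≤ N := by exact_mod_cast hN1
  have hX : X < 27 * (N + 1) ^ 2 := by
    have h1 := Nat.lt_succ_sqrt (X / 27)
    rw [← hN] at h1
    simp only [Nat.succ_eq_add_one] at h1
    have h2 : X < 27 * (X / 27 + 1) := by omega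
    have h3 : X / 27 + 1 ≤ (N + 1) * (N + 1) := h1
    calc X < 27 * (X / 27 + 1) := h2
      _ ≤ 27 * ((N + 1) * (N + 1)) := by gcongr
      _ = _ := by ring
  have h2 := count_fam A N hN1
  have h3 : ((Icc 1 (N : ℤ)).filter fun B => IsFam A B) ⊆ slice X A := by
    intro B hB
    rw [mem_filter, mem_Icc] at hB
    obtain ⟨⟨h4, h5⟩, h6⟩ := hB
    have h7 : N * N ≤ X / 27 := by
      rw [hN]
      exact Nat.sqrt_le _
    have h8 : N * N * 27 ≤ X := (Nat.le_div_iff_mul_le (by norm_num)).1 h7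
    have h9 : 27 * B ^ 2 ≤ X := by
      have h10 : B ^ 2 ≤ (N : ℤ) ^ 2 := pow_le_pow_left₀ (by omega) h5 2
      have h11 : (N : ℤ) * N * 27 ≤ X := by exact_mod_cast h8
      nlinarith
    unfold slice
    rw [mem_filter, mem_Icc]
    refine ⟨⟨by omega, ?_⟩, h6, h9⟩
    nlinarith
  have h4 : (((Icc 1 (N : ℤ)).filter fun B => IsFam A B).card : ℝ) ≤ (slice X A).card := by
    exact_mod_cast card_le_card h3
  have h5 : √(X : ℝ) ≤ 10.5 * N := by
    rw [Real.sqrt_le_left (by positivity)]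
    have h6 : (X : ℝ) ≤ 27 * ((N : ℝ) + 1) ^ 2 := by exact_mod_cast hX.le
    nlinarith
  linarith

end Pool.Agent.V7H54.W
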