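import Pool.Agent.V7H54.W.Mn
import Pool.Agent.V7H54.M.GenP

/-!
# The average of `2 ^ rank` in a slice, uniformly: all parameters
-/

set_option autoImplicit false
set_option linter.all false

open Polynomial WeierstrassCurve.Affine
open scoped Classical

namespace Pool.Agent.V7H54.W

open Pool.Agent.V7H54.A
open Pool.Agent.V7H54.N
open Pool.Agent.V7H54.M
open Pool.Agent.N783.PF
open Pool.Agent.H925R3.DC

/-- The irreducible cubics. -/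
theorem irr_u : ∃ (C : ℝ) (B₀ : ℕ), 0 ≤ C ∧ ∀ (A : ℤ) (B : ℕ), B₀ ≤ B → 1 ≤ B →
    |A| ≤ (B : ℤ) ^ 2 → ∀ J : Finset ℤ,
    (∀ t ∈ J, |t| ≤ (B : ℤ) ^ 3 ∧ 4 * A ^ 3 + 27 * t ^ 2 ≠ 0 ∧ Irreducible (fq A t)) →
    ∑ t ∈ J, (2 : ℝ) ^ rk A t ≤ C * (B : ℝ) ^ 3 := by
  obtain ⟨C, B₀, hC, h⟩ := main_rku
  refine ⟨C, B₀, hC, fun A B hB hB1 hA J hJ => ?_⟩
  have hex : ∀ t : ℤ, ∃ (L : Type) (_ : Field L) (_ : NumberField L) (_ : Algebra ℚ L) (θ : L),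
      t ∈ J → IsGen 1 (pol A t) θ := by
    intro t
    by_cases ht : t ∈ J
    · obtain ⟨L, i1, i2, i3, θ, hθ⟩ := ex_fld (hJ t ht).2.2
      exact ⟨L, i1, i2, i3, θ, fun _ => hθ⟩
    · exact ⟨ℚ, inferInstance, inferInstance, inferInstance, 0, fun h => absurd h ht⟩
  choose K i1 i2 i3 θ hθ using hex
  exact h A B hB hB1 hA J K θ (fun t ht => ⟨(hJ t ht).1, (hJ t ht).2.1, hθ t ht⟩)

/-- the size of the root -/
theorem root_size3 {A m t : ℤ} {z : ℝ} (hz : 1 ≤ z) (ht : t = -(m ^ 3 + A * m))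
    (hA : |(A : ℝ)| ≤ z ^ 2) (h : |(t : ℝ)| ≤ z ^ 3) : |(m : ℝ)| ≤ 2 * z := by
  by_contra hcon
  push Not at hcon
  obtain ⟨μ, hμ⟩ : ∃ μ : ℝ, μ = |(m : ℝ)| := ⟨_, rfl⟩
  rw [← hμ] at hcon
  have h1 : μ ^ 3 ≤ z ^ 3 + z ^ 2 * μ := by
    have h2 : (m : ℝ) ^ 3 = -(t : ℝ) - A * m := by
      rw [ht]
      push_cast
      ring
    have h3 : μ ^ 3 = |(m : ℝ) ^ 3| := by rw [hμ, abs_pow]
    rw [h3, h2]
    calc |-(t : ℝ) - A * m| ≤ |-(t : ℝ)| + |(A : ℝ) * m| := abs_sub _ _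
      _ = |(t : ℝ)| + |(A : ℝ)| * μ := by rw [abs_neg, abs_mul, hμ]
      _ ≤ _ := by
        have : 0 ≤ μ := by rw [hμ]; positivity
        gcongr
  have h4 : (2 * z) ^ 2 ≤ μ ^ 2 := pow_le_pow_left₀ (by linarith) hcon.le 2
  have h5 : (2 * z) ^ 2 * μ ≤ μ ^ 3 := by
    have h6 : 0 < μ := by linarith
    nlinarith
  have h7 : 3 * z ^ 2 * μ ≤ z ^ 3 := by nlinarith
  have h8 : 3 * z ^ 2 * (2 * z) ≤ 3 * z ^ 2 * μ := by
    have : 0 ≤ 3 * z ^ 2 := by positivity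
    exact mul_le_mul_of_nonneg_left hcon.le this
  have h9 : 0 < z ^ 3 := by positivity
  nlinarith

/-- The reducible cubics. -/
theorem red_u (A : ℤ) (B : ℕ) (hB1 : 1 ≤ B) (hA : |A| ≤ (B : ℤ) ^ 2) (J : Finset ℤ)
    (hJ : ∀ t ∈ J, |t| ≤ (B : ℤ) ^ 3 ∧ 4 * A ^ 3 + 27 * t ^ 2 ≠ 0 ∧ ¬ Irreducible (fq A t)) :
    ∑ t ∈ J, (2 : ℝ) ^ rk A t ≤ 5940 * (B : ℝ) ^ 3 := by
  have hz1 : (1 : ℝ) ≤ B := by exact_mod_cast hB1
  have hA' : |(A : ℝ)| ≤ (B : ℝ) ^ 2 := by exact_mod_cast hA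
  have hch : ∀ t ∈ J, ∃ m : ℤ, t = -(m ^ 3 + A * m) := fun t ht => ex_root (hJ t ht).2.2
  choose! m hm using hch
  have hmM : ∀ t ∈ J, |(m t : ℝ)| ≤ 2 * B := by
    intro t ht
    exact root_size3 hz1 (hm t ht) hA' (by exact_mod_cast (hJ t ht).1)
  have hmM' : ∀ t ∈ J, |m t| ≤ 2 * (B : ℤ) := fun t ht => by exact_mod_cast hmM t ht
  have hcard : (J.card : ℝ) ≤ 5 * B := by
    have h1 : J.card ≤ (Finset.Icc (-(2 * (B : ℤ))) (2 * B)).card := by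
      refine Finset.card_le_card_of_injOn m ?_ ?_
      · intro t ht
        rw [Finset.mem_coe, Finset.mem_Icc]
        exact abs_le.1 (hmM' t ht)
      · intro t ht t' ht' h
        rw [hm t ht, hm t' ht', h]
    rw [Int.card_Icc] at h1
    have h4 : ((J.card : ℤ)) ≤ 5 * B := by omega
    exact_mod_cast h4
  have hone : ∀ t ∈ J, (2 : ℝ) ^ rk A t ≤ 1188 * (B : ℝ) ^ 2 := by
    intro t ht
    refine (red_one (hm t ht) (hJ t ht).2.1).trans ?_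
    have h1 : (m t : ℝ) ^ 2 ≤ (2 * (B : ℝ)) ^ 2 := by
      rw [← sq_abs]
      exact pow_le_pow_left₀ (abs_nonneg _) (hmM t ht) 2
    have h2 : (1 : ℝ) ≤ (B : ℝ) ^ 2 := one_le_pow₀ hz1
    nlinarith
  calc ∑ t ∈ J, (2 : ℝ) ^ rk A t ≤ ∑ t ∈ J, 1188 * (B : ℝ) ^ 2 := Finset.sum_le_sum hone
    _ = J.card * (1188 * (B : ℝ) ^ 2) := by rw [Finset.sum_const, nsmul_eq_mul]
    _ ≤ (5 * B) * (1188 * (B : ℝ) ^ 2) := by gcongr
    _ = _ := by ring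

/-- **All cubics with `|A| ≤ B ^ 2`, `|t| ≤ B ^ 3`.** -/
theorem all_u : ∃ (C : ℝ) (B₀ : ℕ), 0 ≤ C ∧ ∀ (A : ℤ) (B : ℕ), B₀ ≤ B → 1 ≤ B →
    |A| ≤ (B : ℤ) ^ 2 → ∀ J : Finset ℤ,
    (∀ t ∈ J, |t| ≤ (B : ℤ) ^ 3 ∧ 4 * A ^ 3 + 27 * t ^ 2 ≠ 0) →
    ∑ t ∈ J, (2 : ℝ) ^ rk A t ≤ C * (B : ℝ) ^ 3 := by
  obtain ⟨C, B₀, hC, h⟩ := irr_u
  refine ⟨C + 5940, B₀, by positivity, fun A B hB hB1 hA J hJ => ?_⟩
  rw [← Finset.sum_filter_add_sum_filter_not J (fun t => Irreducible (fq A t))]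
  have h1 := h A B hB hB1 hA (J.filter fun t => Irreducible (fq A t)) (fun t ht => by
    rw [Finset.mem_filter] at ht
    exact ⟨(hJ t ht.1).1, (hJ t ht.1).2, ht.2⟩)
  have h2 := red_u A B hB1 hA (J.filter fun t => ¬ Irreducible (fq A t)) (fun t ht => by
    rw [Finset.mem_filter] at ht
    exact ⟨(hJ t ht.1).1, (hJ t ht.1).2, ht.2⟩)
  linarith

/-- **The family `y² = x³ + b x² + c x + t`, uniformly in `b` and `c`.** -/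
theorem gen_u : ∃ C : ℝ, 0 ≤ C ∧ ∀ (b c : ℤ) (T : ℝ), 1 ≤ T → ∀ J : Finset ℤ,
    (∀ t ∈ J, |(t : ℝ)| ≤ T ∧ (cv b c t).Δ ≠ 0) →
    ∑ t ∈ J, (2 : ℝ) ^ Module.finrank ℤ (cv b c t).Point ≤
      C * (T + |(b : ℝ)| ^ 3 + √(|(c : ℝ)| ^ 3)) := by
  obtain ⟨C, B₀, hC, hmain⟩ := all_u
  obtain ⟨m, hm⟩ : ∃ m : ℕ, m = B₀ + 11 := ⟨_, rfl⟩
  refine ⟨C * (8 * (m : ℝ) ^ 3), by positivity, fun b c T hT J hJ => ?_⟩
  obtain ⟨S, hS⟩ : ∃ S : ℝ, S = T + |(b : ℝ)| ^ 3 + √(|(c : ℝ)| ^ 3) := ⟨_, rfl⟩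
  rw [← hS]
  have hb0 : 0 ≤ |(b : ℝ)| := abs_nonneg _
  have hc0 : 0 ≤ |(c : ℝ)| := abs_nonneg _
  have hsc0 : 0 ≤ √(|(c : ℝ)| ^ 3) := Real.sqrt_nonneg _
  have hS1 : 1 ≤ S := by
    rw [hS]
    have : 0 ≤ |(b : ℝ)| ^ 3 := by positivity
    linarith
  have hS0 : 0 ≤ S := by linarith
  obtain ⟨z, hz⟩ : ∃ z : ℝ, z = S ^ ((1 : ℝ) / 3) := ⟨_, rfl⟩
  have hz0 : 0 ≤ z := by rw [hz]; positivity
  have hz3 : z ^ 3 = S := by
    rw [hz, ← Real.rpow_natCast, ← Real.rpow_mul hS0]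
    norm_num
  have hz1 : 1 ≤ z := by
    by_contra h
    push Not at h
    have : z ^ 3 < 1 := pow_lt_one₀ hz0 h (by norm_num)
    linarith
  have hbz : |(b : ℝ)| ≤ z := by
    by_contra h
    push Not at h
    have h1 : z ^ 3 < |(b : ℝ)| ^ 3 := pow_lt_pow_left₀ h hz0 (by norm_num)
    linarith
  have hcz : |(c : ℝ)| ≤ z ^ 2 := by
    by_contra h
    push Not at h
    have h1 : (z ^ 2) ^ 3 < |(c : ℝ)| ^ 3 := pow_lt_pow_left₀ h (by positivity) (by norm_num)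
    have h2 : z ^ 3 < √(|(c : ℝ)| ^ 3) := by
      refine Real.lt_sqrt_of_sq_lt ?_
      calc (z ^ 3) ^ 2 = (z ^ 2) ^ 3 := by ring
        _ < _ := h1
    have : 0 ≤ |(b : ℝ)| ^ 3 := by positivity
    linarith
  have hTz : T ≤ z ^ 3 := by
    rw [hz3, hS]
    have : 0 ≤ |(b : ℝ)| ^ 3 := by positivity
    linarith
  obtain ⟨n, hn⟩ : ∃ n : ℕ, n = ⌈z⌉₊ := ⟨_, rfl⟩
  have hnz : z ≤ n := by rw [hn]; exact Nat.le_ceil z
  have hnz2 : (n : ℝ) ≤ 2 * z := by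
    have := (Nat.ceil_lt_add_one hz0).le
    rw [← hn] at this
    linarith
  have hn1 : 1 ≤ n := by
    have : (1 : ℝ) ≤ n := hz1.trans hnz
    exact_mod_cast this
  obtain ⟨B, hB⟩ : ∃ B : ℕ, B = m * n := ⟨_, rfl⟩
  have hm11 : (11 : ℝ) ≤ m := by
    rw [hm]
    push_cast
    have : (0 : ℝ) ≤ B₀ := by positivity
    linarith
  have hBr : 11 * z ≤ (B : ℝ) := by
    rw [hB]
    push_cast
    exact mul_le_mul hm11 hnz hz0 (by linarith)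
  have hBm : m ≤ B := by rw [hB]; exact Nat.le_mul_of_pos_right _ hn1
  have hB0 : B₀ ≤ B := by omega
  have hB1 : 1 ≤ B := by omega
  have hgA : |gA b c| ≤ (B : ℤ) ^ 2 := by
    have h1 : |((gA b c : ℤ) : ℝ)| ≤ (B : ℝ) ^ 2 := by
      unfold gA
      push_cast
      calc |81 * (c : ℝ) - 27 * (b : ℝ) ^ 2| ≤ |81 * (c : ℝ)| + |27 * (b : ℝ) ^ 2| := abs_sub _ _
        _ = 81 * |(c : ℝ)| + 27 * |(b : ℝ)| ^ 2 := by
            rw [abs_mul, abs_mul, abs_pow]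
            norm_num
        _ ≤ 81 * z ^ 2 + 27 * z ^ 2 := by gcongr
        _ ≤ (11 * z) ^ 2 := by nlinarith [sq_nonneg z]
        _ ≤ (B : ℝ) ^ 2 := by gcongr
    exact_mod_cast h1
  have hinj : Function.Injective (gT b c) := by
    intro t t' h
    unfold gT at h
    omega
  have h1 : ∑ t ∈ J, (2 : ℝ) ^ Module.finrank ℤ (cv b c t).Point ≤
      ∑ t ∈ J, (2 : ℝ) ^ rk (gA b c) (gT b c t) := by
    refine Finset.sum_le_sum fun t ht => ?_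
    exact pow_le_pow_right₀ (by norm_num) (rk_le (hJ t ht).2)
  have h2 : ∑ t ∈ J, (2 : ℝ) ^ rk (gA b c) (gT b c t) =
      ∑ s ∈ J.image (gT b c), (2 : ℝ) ^ rk (gA b c) s := by
    rw [Finset.sum_image fun x _ y _ h => hinj h]
  have h3 := hmain (gA b c) B hB0 hB1 hgA (J.image (gT b c)) (by
    intro s hs
    obtain ⟨t, ht, rfl⟩ := Finset.mem_image.1 hs
    refine ⟨?_, disc_of (hJ t ht).2⟩
    have h4 : |((gT b c t : ℤ) : ℝ)| ≤ (B : ℝ) ^ 3 := by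
      unfold gT
      push_cast
      calc |729 * (t : ℝ) - 243 * b * c + 54 * (b : ℝ) ^ 3|
          ≤ |729 * (t : ℝ) - 243 * b * c| + |54 * (b : ℝ) ^ 3| := abs_add_le _ _
        _ ≤ (|729 * (t : ℝ)| + |243 * (b : ℝ) * c|) + |54 * (b : ℝ) ^ 3| := by
            gcongr
            exact abs_sub _ _
        _ = 729 * |(t : ℝ)| + 243 * (|(b : ℝ)| * |(c : ℝ)|) + 54 * |(b : ℝ)| ^ 3 := by
            rw [abs_mul, abs_mul, abs_mul, abs_mul, abs_pow]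
            norm_num
            ring
        _ ≤ 729 * z ^ 3 + 243 * (z * z ^ 2) + 54 * z ^ 3 := by
            have := (hJ t ht).1.trans hTz
            gcongr
        _ ≤ (11 * z) ^ 3 := by
            have : 0 ≤ z ^ 3 := by positivity
            nlinarith
        _ ≤ (B : ℝ) ^ 3 := by gcongr
    exact_mod_cast h4)
  have h5 : (B : ℝ) ^ 3 ≤ 8 * (m : ℝ) ^ 3 * S := by
    rw [hB]
    push_cast
    calc ((m : ℝ) * n) ^ 3 = (m : ℝ) ^ 3 * (n : ℝ) ^ 3 := by ring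
      _ ≤ (m : ℝ) ^ 3 * (2 * z) ^ 3 := by gcongr
      _ = 8 * (m : ℝ) ^ 3 * z ^ 3 := by ring
      _ = 8 * (m : ℝ) ^ 3 * S := by rw [hz3]
  calc _ ≤ _ := h1
    _ = _ := h2
    _ ≤ C * (B : ℝ) ^ 3 := h3
    _ ≤ C * (8 * (m : ℝ) ^ 3 * S) := by gcongr
    _ = _ := by ring

end Pool.Agent.V7H54.W
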