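import Pool.Agent.V7H54.M.CntP
import Pool.Agent.V7H54.M.RedC
import Pool.Agent.V7H54.W.Cn
import Pool.Agent.V7H54.W.Bs

/-!
# The average of `2 ^ rank`, uniformly
-/

set_option autoImplicit false
set_option linter.all false

open Polynomial Matrix NumberField WeierstrassCurve.Affine
open scoped Classical

namespace Pool.Agent.V7H54.W

open Pool.Agent.V7H54.A
open Pool.Agent.V7H54.N
open Pool.Agent.V7H54.M
open Pool.Agent.N783.PF
open Pool.Agent.H925R3.DC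

/-- **The average of `2 ^ rank`.** -/
theorem main_rku : ∃ (C : ℝ) (B₀ : ℕ), 0 ≤ C ∧ ∀ (A : ℤ) (B : ℕ), B₀ ≤ B → 1 ≤ B →
    |A| ≤ (B : ℤ) ^ 2 →
    ∀ (J : Finset ℤ) (K : ℤ → Type) [∀ t, Field (K t)] [∀ t, NumberField (K t)]
    [∀ t, Algebra ℚ (K t)] (θ : ∀ t, K t), (∀ t ∈ J, |t| ≤ (B : ℤ) ^ 3 ∧
      4 * A ^ 3 + 27 * t ^ 2 ≠ 0 ∧ IsGen 1 (pol A t) (θ t)) →
    ∑ t ∈ J, (2 : ℝ) ^ rk A t ≤ C * (B : ℝ) ^ 3 := by
  obtain ⟨C₁, hC₁1, hC₁⟩ := bad_of3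
  obtain ⟨K₀, hK₀, B₀, hB₀⟩ := cu C₁ hC₁1
  refine ⟨K₀ + 3, B₀, by positivity, fun A B hB1 hB5 hB2 J K _ _ _ θ hJ => ?_⟩
  -- the representatives
  have hrep : ∀ t : ℤ, ∃ R : Finset (crv ℚ (A : ℚ) (t : ℚ)).Point, t ∈ J →
      2 ^ rk A t = R.card ∧ 0 ∈ R ∧ ∀ P ∈ R, ∀ Q ∈ R,
      (∃ S : (crv ℚ (A : ℚ) (t : ℚ)).Point, P - Q = S + S) → P = Q := by
    intro t
    by_cases h : t ∈ J
    · obtain ⟨R, h1, h2, h3⟩ := ex_rep (crv ℚ (A : ℚ) (t : ℚ)).Point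
        (Pool.Agent.H64R2.DDMWK.mwk ℚ A t (hJ t h).2.1)
      exact ⟨R, fun _ => ⟨h1, h2, h3⟩⟩
    · exact ⟨∅, fun h1 => absurd h1 h⟩
  choose Rp hRp using hrep
  -- the choice
  have hch : ∀ (t : ℤ) (P : (crv ℚ (A : ℚ) (t : ℚ)).Point), ∃ (x y : ℚ) (r s u : ℤ), P ≠ 0 →
      (∃ h : (crv ℚ (A : ℚ) (t : ℚ)).Nonsingular x y, P = Point.some x y h) ∧ s ≠ 0 ∧
      IsCoprime u s ∧ x = r / s ^ 2 ∧ y = u / s ^ 3 ∧
      u ^ 2 = r ^ 3 + A * r * s ^ 4 + t * s ^ 6 := by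
    intro t P
    rcases P with _ | ⟨x, y, h⟩
    · exact ⟨0, 0, 0, 0, 0, fun h => absurd rfl h⟩
    · obtain ⟨r, s, u, h1, h2, h3, h4, h5⟩ := shape (curve_eq h)
      exact ⟨x, y, r, s, u, fun _ => ⟨⟨h, rfl⟩, h1, h2, h3, h4, h5⟩⟩
  choose x y r s u hP using hch
  obtain ⟨α, hα⟩ : ∃ α : ∀ t : ℤ, (crv ℚ (A : ℚ) (t : ℚ)).Point → K t,
    ∀ t P, α t P = (r t P : K t) - (s t P : K t) ^ 2 * θ t := ⟨_, fun _ _ => rfl⟩
  have hαx : ∀ t P, P ≠ 0 → α t P = (s t P : K t) ^ 2 * (algebraMap ℚ (K t) (x t P) - θ t) := by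
    intro t P h
    obtain ⟨-, h1, -, h2, -⟩ := hP t P h
    have h1' : (s t P : K t) ≠ 0 := by exact_mod_cast h1
    rw [hα, h2]
    simp only [map_div₀, map_pow, map_intCast]
    field_simp
  obtain ⟨R, hR⟩ : ∃ R : ℤ → ℤ → (Σ t : ℤ, (crv ℚ (A : ℚ) (t : ℚ)).Point) → ℤ → ℤ → ℤ → ℤ → ℤ → Prop,
      ∀ P r' z a b' c' d e, R P r' z a b' c' d e ↔ (z.1 ∈ J ∧ z.2 ∈ Rp z.1 ∧ z.2 ≠ 0 ∧
        ∃ h : IsGen 1 (pol A z.1) (θ z.1), Rel h (α z.1 z.2) P r' a b' c' d e) :=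
    ⟨_, fun _ _ _ _ _ _ _ _ => Iff.rfl⟩
  have hPr : ∀ P r : ℤ, (P, r) ∈ Pr C₁ → P ≠ 0 ∧ r ≠ 0 := by
    intro P r h
    unfold Pr at h
    rw [Finset.mem_filter, Finset.mem_product, Finset.mem_Icc, Finset.mem_Icc] at h
    obtain ⟨⟨h1, h2, h3⟩, h4, h5⟩ := h
    simp only at h1 h2 h3 h4 h5
    exact ⟨h4, by omega⟩
  obtain ⟨Y, hY⟩ : ∃ Y : Finset (Σ t : ℤ, (crv ℚ (A : ℚ) (t : ℚ)).Point),
    Y = J.sigma fun t => (Rp t).filter fun P => P ≠ 0 := ⟨_, rfl⟩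
  have hne : ∀ t ∈ J, ∀ P : (crv ℚ (A : ℚ) (t : ℚ)).Point, P ≠ 0 → α t P ≠ 0 ∧ u t P ≠ 0 := by
    intro t ht P hP0
    obtain ⟨⟨h, -⟩, h1, -, h2, h3, -⟩ := hP t P hP0
    have hG := (hJ t ht).2.2
    have h1' : (s t P : K t) ≠ 0 := by exact_mod_cast h1
    constructor
    · rw [hαx t P hP0]
      exact mul_ne_zero (pow_ne_zero 2 h1') (sub_ne hG _)
    · intro h4
      have h5 := curve_eq h
      rw [h3, h4] at h5
      apply no_root hG (x t P)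
      rw [← h5]
      simp
  have hYc : (Y.card : ℝ) ≤ K₀ * (B : ℝ) ^ 3 := by
    refine hB₀ A _ R ?_ B hB1 Y ?_
    · -- the separation
      rintro P r' hPr' ⟨t, Q⟩ ⟨t', Q'⟩ a b' c' d e h1 h2
      rw [hR] at h1 h2
      obtain ⟨hP0, hr0⟩ := hPr P r' hPr'
      obtain ⟨hJ1, hx, hx0, hp, hrel⟩ := h1
      obtain ⟨hJ1', hx', hx0', hp', hrel'⟩ := h2
      simp only at hJ1 hx hx0 hp hrel hJ1' hx' hx0' hp' hrel'
      have htt : t = t' := by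
        have e1 := hrel.1
        have e2 := hrel'.1
        rw [e1] at e2
        exact mul_right_cancel₀ (mul_ne_zero hr0 (pow_ne_zero 3 hP0)) (neg_injective e2)
      subst htt
      obtain ⟨σ, hσ⟩ := sep hp (hne t hJ1 Q hx0).1 (hne t hJ1 Q' hx0').1 hP0 hr0 hrel hrel'
      rw [hαx t Q hx0, hαx t Q' hx0'] at hσ
      obtain ⟨⟨h, hQe⟩, k1, -⟩ := hP t Q hx0
      obtain ⟨⟨h', hQe'⟩, k1', -⟩ := hP t Q' hx0'
      have k2 : (s t Q : K t) ≠ 0 := by exact_mod_cast k1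
      have k2' : (s t Q' : K t) ≠ 0 := by exact_mod_cast k1'
      have hσ' : algebraMap ℚ (K t) (x t Q') - θ t =
          (σ * s t Q / s t Q') ^ 2 * (algebraMap ℚ (K t) (x t Q) - θ t) := by
        field_simp
        linear_combination hσ
      have h5 := inj_desc hp h' h hσ'
      rw [← hQe, ← hQe'] at h5
      have h6 := (hRp t hJ1).2.2 Q' hx' Q hx h5
      rw [h6]
    · -- the tuples
      rintro ⟨t, Q⟩ hy
      rw [hY, Finset.mem_sigma, Finset.mem_filter] at hy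
      obtain ⟨hJ1, hx, hx1⟩ := hy
      simp only at hJ1 hx hx1
      obtain ⟨hT1, hd, hp⟩ := hJ t hJ1
      obtain ⟨hα0, hu0⟩ := hne t hJ1 Q hx1
      obtain ⟨⟨h, hQe⟩, k1, k2, k3, k4, k5⟩ := hP t Q hx1
      have k1' : (s t Q : K t) ≠ 0 := by exact_mod_cast k1
      have hns : ¬ IsSquare (α t Q) := by
        rintro ⟨σ, hσ⟩
        rw [hαx t Q hx1] at hσ
        have h1 : algebraMap ℚ (K t) (x t Q) - θ t = (σ / s t Q) ^ 2 := by
          field_simp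
          linear_combination hσ
        obtain ⟨S, hS⟩ := ker_desc hp h h1
        rw [← hQe] at hS
        exact hx1 ((hRp t hJ1).2.2 Q hx 0 (hRp t hJ1).2.1 ⟨S, by rw [sub_zero]; exact hS⟩)
      have hN : IsSquare (Algebra.norm ℚ (α t Q)) := by
        refine ⟨(u t Q : ℚ), ?_⟩
        have h1 := norm_lin hp (r t Q) ((s t Q) ^ 2)
        have h2 : (u t Q : ℚ) ^ 2 = (r t Q : ℚ) ^ 3 + A * (r t Q) * (s t Q) ^ 4 + t * (s t Q) ^ 6 := by
          exact_mod_cast k5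
        rw [hα]
        push_cast at h1
        rw [h1, ← sq, h2]
        ring
      have hL := lat_pt hp hu0 k2 k5
      rw [← hα] at hL
      have hiso : ∃ z ∈ Lam (u t Q) (θ t) (α t Q), z ≠ 0 ∧ hp.top (z * z / α t Q) = 0 := by
        refine ⟨α t Q, (mem_lam _ _ _).2 ⟨0, 1, ⟨0, 0, 0, by simp⟩, ⟨1, 0, 0, by simp⟩, by ring⟩,
          hα0, ?_⟩
        rw [mul_self_div_self, hα]
        have e : (r t Q : K t) - (s t Q : K t) ^ 2 * θ t =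
            algebraMap ℚ (K t) (r t Q : ℚ) + algebraMap ℚ (K t) (-(s t Q : ℚ) ^ 2) * θ t +
              algebraMap ℚ (K t) 0 * θ t ^ 2 := by
          simp only [map_neg, map_pow, map_intCast, map_zero]
          ring
        rw [e, top3]
      obtain ⟨P, r', hPr', k, hk⟩ := hC₁ (K t) A t B _ hp (α t Q) _ hiso
        (ht_pol2 hB2 hT1) hα0 hN hL hns
      refine ⟨P, r', hPr', k, hk.1, ?_⟩
      obtain ⟨a, b', ha, hab⟩ := hk.2
      refine ⟨a, b', ha, fun m hm => ?_⟩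
      obtain ⟨c', d, e, h1, h2, h3, h4, h5, h6, h7⟩ := hab m hm
      refine ⟨c', d, e, h1, h2, h3, h4, h5, h6, ?_⟩
      rw [hR]
      exact ⟨hJ1, hx, hx1, hp, h7⟩
  -- the sum
  have hsum : ∑ t ∈ J, (2 : ℝ) ^ rk A t = J.card + Y.card := by
    have h1 : ∀ t ∈ J, (2 : ℝ) ^ rk A t = 1 + (((Rp t).filter fun P => P ≠ 0).card : ℝ) := by
      intro t ht
      obtain ⟨h2, h3, -⟩ := hRp t ht
      have h4 : Rp t = insert 0 ((Rp t).filter fun P => P ≠ 0) := by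
        ext P
        simp only [Finset.mem_insert, Finset.mem_filter]
        constructor
        · intro h
          by_cases h1 : P = 0
          · exact Or.inl h1
          · exact Or.inr ⟨h, h1⟩
        · rintro (rfl | h)
          · exact h3
          · exact h.1
      have h5 : (Rp t).card = ((Rp t).filter fun P => P ≠ 0).card + 1 := by
        conv_lhs => rw [h4]
        rw [Finset.card_insert_of_notMem (by simp)]
      have h6 : (2 : ℝ) ^ rk A t = ((2 ^ rk A t : ℕ) : ℝ) := by push_cast; rfl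
      rw [h6, h2, h5]
      push_cast
      ring
    rw [Finset.sum_congr rfl h1, Finset.sum_add_distrib, hY, Finset.card_sigma]
    push_cast
    simp
  have hJc : (J.card : ℝ) ≤ 3 * (B : ℝ) ^ 3 := by
    have h1 : J ⊆ Finset.Icc (-((B : ℤ) ^ 3)) ((B : ℤ) ^ 3) := by
      intro t ht
      rw [Finset.mem_Icc]
      exact abs_le.1 (hJ t ht).1
    have h2 := Finset.card_le_card h1
    rw [Int.card_Icc] at h2
    have h3 : (1 : ℤ) ≤ (B : ℤ) ^ 3 := by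
      have : (1 : ℤ) ≤ B := by exact_mod_cast hB5
      exact one_le_pow₀ this
    have h4 : ((J.card : ℤ)) ≤ 3 * (B : ℤ) ^ 3 := by omega
    exact_mod_cast h4
  rw [hsum]
  calc (J.card : ℝ) + Y.card ≤ 3 * (B : ℝ) ^ 3 + K₀ * (B : ℝ) ^ 3 := add_le_add hJc hYc
    _ = _ := by ring

end Pool.Agent.V7H54.W
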