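import Pool.Agent.V7H54.W.Sw
import Pool.Agent.V7H54.A.Gl

/-!
# The points of a quadric of dimension four in a box: one of the two regions, uniformly in the constant term
-/

set_option autoImplicit false
set_option linter.all false

open scoped Real
open Finset

namespace Pool.Agent.V7H54.W

open Pool.Agent.V7H54.A

/-- The bound for the number of roots. -/
def RB (D : ℝ) : Prop := ∀ (p M : ℤ) (g : ℕ), p ≠ 0 → 0 < g → ∀ s : Finset ℤ,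
    (∀ c ∈ s, 0 ≤ c ∧ c < g) → (∀ c ∈ s, (g : ℤ) ∣ p * c ^ 2 - M) →
    (s.card : ℝ) ≤ D * |(p : ℝ)| * wt g

theorem gl3 {D : ℝ} (hD0 : 1 ≤ D) (hD : RB D) {u s p M : ℤ} (hu : u ≠ 0) (hp : p ≠ 0) {g : ℕ}
    (hg : g = Int.gcd u s)
    {C X γ Y : ℝ} (hC : 1 ≤ C) (hX : 1 ≤ X) (hγ0 : 0 ≤ γ)
    (hγ : γ ≤ C * X) (huX : |(u : ℝ)| ≤ C * X) (hY : X ≤ Y) (T : Finset (ℤ × ℤ × ℤ))
    (hT : ∀ t ∈ T, |(t.1 : ℝ)| ≤ γ ∧ |(t.2.1 : ℝ)| ≤ Y ∧ u * t.2.2 + s * t.2.1 + p * t.1 ^ 2 = M) :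
    (T.card : ℝ) ≤ D * |(p : ℝ)| * wt g *
      (64 * (2 * γ / g + 1) * (Y * g / |(u : ℝ)|) + 2 * EE C X 1 p) := by
  have hgpos : 0 < g := by rw [hg]; exact Int.gcd_pos_of_ne_zero_left _ hu
  have hgz : (g : ℤ) ≠ 0 := by exact_mod_cast hgpos.ne'
  have hu1 : (g : ℤ) ∣ u := by rw [hg]; exact Int.gcd_dvd_left _ _
  have hs1 : (g : ℤ) ∣ s := by rw [hg]; exact Int.gcd_dvd_right _ _
  have hB0 : 0 ≤ 64 * (2 * γ / g + 1) * (Y * g / |(u : ℝ)|) + 2 * EE C X 1 p := by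
    have : 0 ≤ EE C X 1 p := Real.sqrt_nonneg _
    have : 0 ≤ Y := by linarith
    positivity
  have hroot : ∀ t ∈ T, (g : ℤ) ∣ p * (t.1 % g) ^ 2 - M := by
    intro t ht
    have h1 : (g : ℤ) ∣ p * t.1 ^ 2 - M := by
      have h2 := (hT t ht).2.2
      have e : p * t.1 ^ 2 - M = -(u * t.2.2 + s * t.2.1) := by linear_combination h2
      rw [e, dvd_neg]
      exact dvd_add (Dvd.dvd.mul_right hu1 _) (Dvd.dvd.mul_right hs1 _)
    have h2 : (g : ℤ) ∣ t.1 % g - t.1 := by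
      rw [Int.emod_def]
      exact ⟨-(t.1 / g), by ring⟩
    obtain ⟨k, hk⟩ := h2
    have h3 : t.1 % g = t.1 + g * k := by linarith
    rw [h3]
    have e : p * (t.1 + g * k) ^ 2 - M = p * t.1 ^ 2 - M + g * (p * k * (2 * t.1 + g * k)) := by ring
    rw [e]
    exact dvd_add h1 (dvd_mul_right _ _)
  have hcl : ((T.image fun t => t.1 % (g : ℤ)).card : ℝ) ≤ D * |(p : ℝ)| * wt g := by
    refine hD p M g hp hgpos _ ?_ ?_
    · intro c hc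
      obtain ⟨t, ht, rfl⟩ := mem_image.1 hc
      exact ⟨Int.emod_nonneg _ hgz, Int.emod_lt_of_pos _ (by exact_mod_cast hgpos)⟩
    · intro c hc
      obtain ⟨t, ht, rfl⟩ := mem_image.1 hc
      exact hroot t ht
  rw [card_eq_sum_card_image (fun t => t.1 % (g : ℤ)) T]
  push_cast
  have hfib : ∀ r ∈ T.image (fun t => t.1 % (g : ℤ)),
      ((T.filter fun t => t.1 % (g : ℤ) = r).card : ℝ) ≤
        64 * (2 * γ / g + 1) * (Y * g / |(u : ℝ)|) + 2 * EE C X 1 p := by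
    intro r _
    have h := fib_r (Q := 1) hu hp hg le_rfl hC hX hγ0 hγ huX hY (T.filter fun t => t.1 % (g : ℤ) = r)
      (fun t ht => hT t (mem_filter.1 ht).1) (by
        intro t ht t' ht'
        refine ⟨?_, by simp, by simp⟩
        rw [mul_one]
        exact Int.ModEq.dvd (show t'.1 ≡ t.1 [ZMOD g] from ((mem_filter.1 ht').2.trans
          (mem_filter.1 ht).2.symm)))
    simpa using h
  refine (sum_le_sum hfib).trans ?_
  rw [sum_const, nsmul_eq_mul]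
  exact mul_le_mul_of_nonneg_right hcl hB0

/-- `(a, b, c, y, z)` with `p₁ a z + p₂ b y + p₃ c² = M` and `|b| ≤ ρ |a|` -/
theorem reg3 {D : ℝ} (hD0 : 1 ≤ D) (hD : RB D) {p₁ p₂ p₃ M : ℤ} (hp₁ : p₁ ≠ 0) (hp₂ : p₂ ≠ 0)
    (hp₃ : p₃ ≠ 0) {C X γ Y α ρ : ℝ} (hC : 1 ≤ C)
    (hX : 1 ≤ X) (hγ0 : 0 ≤ γ) (hγ : γ ≤ C * X) (hα : 1 ≤ α) (hρ : 0 < ρ)
    (hαX : |(p₁ : ℝ)| * α ≤ C * X) (hY : X ≤ Y) (T : Finset (ℤ × ℤ × ℤ × ℤ × ℤ))
    (hT : ∀ t ∈ T, t.1 ≠ 0 ∧ |(t.1 : ℝ)| ≤ α ∧ |(t.2.1 : ℝ)| ≤ ρ * |(t.1 : ℝ)| ∧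
      |(t.2.2.1 : ℝ)| ≤ γ ∧ |(t.2.2.2.1 : ℝ)| ≤ Y ∧
      p₁ * t.1 * t.2.2.2.2 + p₂ * t.2.1 * t.2.2.2.1 + p₃ * t.2.2.1 ^ 2 = M) :
    (T.card : ℝ) ≤ D * |(p₃ : ℝ)| * |((p₁ * p₂ : ℤ) : ℝ)| *
      (128 * γ * Y * (20 * ρ * α + 4 * (ρ + (1 + Real.log α)) * wt α) +
       64 * |((p₁ * p₂ : ℤ) : ℝ)| * Y * (8 * ρ * α * wt α + 2 * (ρ + (1 + Real.log α)) * (α * wt α)) +
       2 * EE C X 1 p₃ * (20 * ρ * α ^ 2 + 4 * (α * wt α))) := by
  have hX0 : 0 < X := by linarith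
  have hY0 : 0 < Y := by linarith
  have hα0 : 0 < α := by linarith
  have hlog : 0 ≤ Real.log α := Real.log_nonneg hα
  have hEE0 : 0 ≤ EE C X 1 p₃ := Real.sqrt_nonneg _
  obtain ⟨K, hK⟩ : ∃ K : ℝ, K = D * |(p₃ : ℝ)| := ⟨_, rfl⟩
  have hK0 : 0 ≤ K := by rw [hK]; positivity
  obtain ⟨c₀, hc₀⟩ : ∃ c₀ : ℝ, c₀ = |((p₁ * p₂ : ℤ) : ℝ)| := ⟨_, rfl⟩
  have hp12 : p₁ * p₂ ≠ 0 := mul_ne_zero hp₁ hp₂
  have hc₀1 : 1 ≤ c₀ := by
    rw [hc₀, ← Int.cast_abs]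
    exact_mod_cast Int.one_le_abs hp12
  rw [← hK, ← hc₀]
  obtain ⟨P, hP⟩ : ∃ P : Finset (ℤ × ℤ), P = T.image fun t => (t.1, t.2.1) := ⟨_, rfl⟩
  have hPm : ∀ x ∈ P, ∃ t ∈ T, (t.1, t.2.1) = x := by
    intro x hx
    rw [hP] at hx
    exact mem_image.1 hx
  have hmap : ∀ t ∈ T, (t.1, t.2.1) ∈ P := fun t ht => by
    rw [hP]
    exact mem_image_of_mem (fun t : ℤ × ℤ × ℤ × ℤ × ℤ => (t.1, t.2.1)) ht
  obtain ⟨s1, s2, s3⟩ := slw P hα hρ (by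
      intro x hx
      obtain ⟨t, ht, rfl⟩ := hPm x hx
      obtain ⟨h1, h2, h3, -⟩ := hT t ht
      exact ⟨h1, h2, h3⟩)
  -- for each pair
  have hfib : ∀ x ∈ P, ((T.filter fun t => (t.1, t.2.1) = x).card : ℝ) ≤
      K * c₀ * (128 * γ * Y * (wt (Int.gcd x.1 x.2 : ℝ) * (1 / |(x.1 : ℝ)|)) +
        64 * c₀ * Y * (wt (Int.gcd x.1 x.2 : ℝ) * (Int.gcd x.1 x.2 : ℝ) * (1 / |(x.1 : ℝ)|)) +
        2 * EE C X 1 p₃ * wt (Int.gcd x.1 x.2 : ℝ)) := by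
    intro x hx
    obtain ⟨t₀, ht₀, hx0⟩ := hPm x hx
    have hx1 : x.1 = t₀.1 := by rw [← hx0]
    have hx2 : x.2 = t₀.2.1 := by rw [← hx0]
    obtain ⟨a1, a2, a3, -⟩ := hT t₀ ht₀
    rw [← hx1] at a1 a2 a3
    rw [← hx2] at a3
    have ha0 : 0 < |(x.1 : ℝ)| := abs_pos.2 (by exact_mod_cast a1)
    have hu : p₁ * x.1 ≠ 0 := mul_ne_zero hp₁ a1
    obtain ⟨G, hG⟩ : ∃ G : ℕ, G = Int.gcd x.1 x.2 := ⟨_, rfl⟩
    rw [← hG]
    have hGpos : 0 < G := by rw [hG]; exact Int.gcd_pos_of_ne_zero_left _ a1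
    have hG0 : (0 : ℝ) < G := by exact_mod_cast hGpos
    obtain ⟨g, hg⟩ : ∃ g : ℕ, g = Int.gcd (p₁ * x.1) (p₂ * x.2) := ⟨_, rfl⟩
    have hgpos : 0 < g := by rw [hg]; exact Int.gcd_pos_of_ne_zero_left _ hu
    have hg0 : (0 : ℝ) < g := by exact_mod_cast hgpos
    have hgd : g ∣ (p₁ * p₂).natAbs * G := by
      have h1 : (g : ℤ) ∣ p₁ * p₂ * x.1 := by
        have : (g : ℤ) ∣ p₁ * x.1 := by rw [hg]; exact Int.gcd_dvd_left _ _
        have e : p₁ * p₂ * x.1 = p₂ * (p₁ * x.1) := by ring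
        rw [e]
        exact Dvd.dvd.mul_left this _
      have h2 : (g : ℤ) ∣ p₁ * p₂ * x.2 := by
        have : (g : ℤ) ∣ p₂ * x.2 := by rw [hg]; exact Int.gcd_dvd_right _ _
        have e : p₁ * p₂ * x.2 = p₁ * (p₂ * x.2) := by ring
        rw [e]
        exact Dvd.dvd.mul_left this _
      have h3 := Int.dvd_gcd h1 h2
      rw [Int.gcd_mul_left, ← hG] at h3
      exact h3
    have hgle : (g : ℝ) ≤ c₀ * G := by
      have h1 := Nat.le_of_dvd (by have := Int.natAbs_pos.2 hp12; positivity) hgd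
      have h2 : (g : ℝ) ≤ (((p₁ * p₂).natAbs * G : ℕ) : ℝ) := by exact_mod_cast h1
      rw [Nat.cast_mul, Nat.cast_natAbs, Int.cast_abs] at h2
      rw [hc₀]
      exact h2
    have hcard : ((T.filter fun t => (t.1, t.2.1) = x).card : ℝ) =
        (((T.filter fun t => (t.1, t.2.1) = x).image fun t => t.2.2).card : ℝ) := by
      rw [card_image_of_injOn]
      intro t ht t' ht' h1
      have h2 := (mem_filter.1 (mem_coe.1 ht)).2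
      have h3 := (mem_filter.1 (mem_coe.1 ht')).2
      have h4 := h2.trans h3.symm
      simp only [Prod.mk.injEq] at h4
      exact Prod.ext h4.1 (Prod.ext h4.2 h1)
    have hgl := gl3 hD0 hD (u := p₁ * x.1) (s := p₂ * x.2) (p := p₃) (M := M) hu hp₃ hg hC hX
      hγ0 hγ (by
        push_cast
        rw [abs_mul]
        refine le_trans ?_ hαX
        gcongr) hY ((T.filter fun t => (t.1, t.2.1) = x).image fun t => t.2.2) (by
        intro y hy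
        obtain ⟨t, ht, rfl⟩ := mem_image.1 hy
        have h1 := mem_filter.1 ht
        obtain ⟨-, -, -, b1, b2, b3⟩ := hT t h1.1
        refine ⟨b1, b2, ?_⟩
        have h2 : t.1 = x.1 := by rw [← h1.2]
        have h3 : t.2.1 = x.2 := by rw [← h1.2]
        rw [← h2, ← h3]
        linarith)
    rw [hcard]
    refine hgl.trans ?_
    rw [← hK]
    have hsg : wt (g : ℝ) ≤ c₀ * wt (G : ℝ) := (wt_mono hgle).trans (wt_mul hc₀1 hG0.le)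
    have hp₁1 : 1 ≤ |(p₁ : ℝ)| := by
      rw [← Int.cast_abs]
      exact_mod_cast Int.one_le_abs hp₁
    have hin : 64 * (2 * γ / g + 1) * (Y * g / |((p₁ * x.1 : ℤ) : ℝ)|) ≤
        128 * γ * Y * (1 / |(x.1 : ℝ)|) + 64 * c₀ * Y * (G * (1 / |(x.1 : ℝ)|)) := by
      have e1 : 64 * (2 * γ / g + 1) * (Y * g / |((p₁ * x.1 : ℤ) : ℝ)|) =
          (128 * γ * Y + 64 * Y * g) * (1 / |((p₁ * x.1 : ℤ) : ℝ)|) := by
        have : 0 < |((p₁ * x.1 : ℤ) : ℝ)| := abs_pos.2 (by exact_mod_cast hu)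
        field_simp
        ring
      have e2 : 1 / |((p₁ * x.1 : ℤ) : ℝ)| ≤ 1 / |(x.1 : ℝ)| := by
        apply one_div_le_one_div_of_le ha0
        push_cast
        rw [abs_mul]
        nlinarith
      have e3 : 64 * Y * g ≤ 64 * c₀ * Y * G := by
        calc 64 * Y * g ≤ 64 * Y * (c₀ * G) := by gcongr
          _ = _ := by ring
      rw [e1]
      calc (128 * γ * Y + 64 * Y * g) * (1 / |((p₁ * x.1 : ℤ) : ℝ)|) ≤
          (128 * γ * Y + 64 * c₀ * Y * G) * (1 / |(x.1 : ℝ)|) := by gcongr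
        _ = _ := by ring
    have hin0 : 0 ≤ 64 * (2 * γ / g + 1) * (Y * g / |((p₁ * x.1 : ℤ) : ℝ)|) := by
      positivity
    have hwG : 0 ≤ wt (G : ℝ) := wt_nn _
    calc K * wt (g : ℝ) * (64 * (2 * γ / g + 1) * (Y * g / |((p₁ * x.1 : ℤ) : ℝ)|) +
          2 * EE C X 1 p₃)
        ≤ K * (c₀ * wt (G : ℝ)) * (128 * γ * Y * (1 / |(x.1 : ℝ)|) +
          64 * c₀ * Y * (G * (1 / |(x.1 : ℝ)|)) + 2 * EE C X 1 p₃) := by gcongr
      _ = _ := by ring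
  rw [card_eq_sum_card_fiberwise hmap]
  push_cast
  refine (sum_le_sum hfib).trans ?_
  rw [← mul_sum]
  refine mul_le_mul_of_nonneg_left ?_ (by positivity)
  rw [sum_add_distrib, sum_add_distrib, ← mul_sum, ← mul_sum, ← mul_sum]
  gcongr

end Pool.Agent.V7H54.W
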