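import Pool.Agent.V7H54.A.Rt
import Pool.Agent.H505R2.DivB

/-!
# The number of solutions of a quadratic congruence, uniformly in the constant term
-/

set_option autoImplicit false
set_option linter.all false

open scoped Real
open Finset

namespace Pool.Agent.V7H54.W

open Pool.Agent.V7H54.A

/-- one divisor -/
theorem roots_fib3 {p M c₀ : ℤ} {g h : ℕ} (hp : p ≠ 0) (hg : 0 < g) (hh : h ∣ g)
    (h0 : (g : ℤ) ∣ p * c₀ ^ 2 - M) (s : Finset ℤ) (h1 : ∀ c ∈ s, 0 ≤ c ∧ c < g)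
    (h2 : ∀ c ∈ s, Int.gcd g (p * (c - c₀)) = h ∧ (g : ℤ) ∣ p * c ^ 2 - M) :
    (s.card : ℝ) ≤ |(p : ℝ)| * √g + 1 := by
  have hg0 : (0 : ℝ) < g := by exact_mod_cast hg
  have hp0 : 0 < |(p : ℝ)| := abs_pos.2 (by exact_mod_cast hp)
  rcases s.eq_empty_or_nonempty with rfl | ⟨c₁, hc₁⟩
  · simp only [card_empty, Nat.cast_zero]
    positivity
  have hhpos : 0 < h := Nat.pos_of_dvd_of_pos hh hg
  obtain ⟨k, hk⟩ := hh
  have hkpos : 0 < k := Nat.pos_of_mul_pos_left (by rw [← hk]; exact hg) |> fun h => by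
    rcases Nat.eq_zero_or_pos k with h0' | h0'
    · rw [h0', mul_zero] at hk
      omega
    · exact h0'
  -- the two moduli
  obtain ⟨d, hd⟩ : ∃ d : ℕ, d = Int.gcd h p := ⟨_, rfl⟩
  have hdpos : 0 < d := by
    rw [hd]
    exact Int.gcd_pos_of_ne_zero_right _ hp
  obtain ⟨h₁, hh₁⟩ : (d : ℤ) ∣ h := by rw [hd]; exact Int.gcd_dvd_left _ _
  obtain ⟨p₁, hp₁⟩ : (d : ℤ) ∣ p := by rw [hd]; exact Int.gcd_dvd_right _ _
  have hd0 : (d : ℤ) ≠ 0 := by exact_mod_cast hdpos.ne'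
  have hh₁pos : 0 < h₁ := by
    have h3 : (0 : ℤ) < d * h₁ := by rw [← hh₁]; exact_mod_cast hhpos
    exact pos_of_mul_pos_right h3 (by positivity)
  have hcop : IsCoprime h₁ p₁ := by
    have h3 : Int.gcd h p = d * Int.gcd h₁ p₁ := by
      rw [hh₁]
      conv_lhs => rw [hp₁]
      rw [Int.gcd_mul_left, Int.natAbs_natCast]
    rw [← hd] at h3
    have h4 : Int.gcd h₁ p₁ = 1 := by
      have : d * 1 = d * Int.gcd h₁ p₁ := by omega
      exact (Nat.eq_of_mul_eq_mul_left hdpos this).symm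
    exact Int.isCoprime_iff_gcd_eq_one.2 h4
  have hA : ∀ c ∈ s, h₁ ∣ c - c₀ := by
    intro c hc
    have h3 : (h : ℤ) ∣ p * (c - c₀) := by
      rw [← (h2 c hc).1]
      exact Int.gcd_dvd_right _ _
    rw [hh₁, hp₁, mul_assoc] at h3
    have h4 := Int.dvd_of_mul_dvd_mul_left hd0 h3
    exact hcop.dvd_of_dvd_mul_left h4
  have hB : ∀ c ∈ s, (k : ℤ) ∣ c + c₀ := by
    intro c hc
    have h3 : (g : ℤ) ∣ p * (c - c₀) * (c + c₀) := by
      have h4 := dvd_sub (h2 c hc).2 h0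
      have e : p * c ^ 2 - M - (p * c₀ ^ 2 - M) = p * (c - c₀) * (c + c₀) := by ring
      rwa [e] at h4
    obtain ⟨t, ht⟩ : (h : ℤ) ∣ p * (c - c₀) := by
      rw [← (h2 c hc).1]
      exact Int.gcd_dvd_right _ _
    have hgz : (g : ℤ) = h * k := by rw [hk]; push_cast; ring
    have hh0 : (h : ℤ) ≠ 0 := by exact_mod_cast hhpos.ne'
    have h5 : IsCoprime (k : ℤ) t := by
      have h6 : Int.gcd g (p * (c - c₀)) = h * Int.gcd k t := by
        rw [ht, hgz, Int.gcd_mul_left, Int.natAbs_natCast]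
      rw [(h2 c hc).1] at h6
      have h7 : Int.gcd k t = 1 := by
        have : h * 1 = h * Int.gcd k t := by omega
        exact (Nat.eq_of_mul_eq_mul_left hhpos this).symm
      exact Int.isCoprime_iff_gcd_eq_one.2 h7
    rw [ht, hgz, mul_assoc] at h3
    exact h5.dvd_of_dvd_mul_left (Int.dvd_of_mul_dvd_mul_left hh0 h3)
  -- the gcd of the two moduli
  obtain ⟨e, he⟩ : ∃ e : ℕ, e = Int.gcd h₁ k := ⟨_, rfl⟩
  have hepos : 0 < e := by
    rw [he]
    exact Int.gcd_pos_of_ne_zero_left _ hh₁pos.ne'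
  have he1 : (e : ℤ) ∣ h₁ := by rw [he]; exact Int.gcd_dvd_left _ _
  have he2 : (e : ℤ) ∣ k := by rw [he]; exact Int.gcd_dvd_right _ _
  -- the lcm
  obtain ⟨a, ha⟩ := he1
  obtain ⟨b, hb⟩ := he2
  have he0 : (e : ℤ) ≠ 0 := by exact_mod_cast hepos.ne'
  have hapos : 0 < a := by
    have h3 : (0 : ℤ) < e * a := by rw [← ha]; exact hh₁pos
    exact pos_of_mul_pos_right h3 (by positivity)
  have hbpos : 0 < b := by
    have h3 : (0 : ℤ) < e * b := by rw [← hb]; exact_mod_cast hkpos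
    exact pos_of_mul_pos_right h3 (by positivity)
  have hab : IsCoprime a b := by
    have h3 : Int.gcd h₁ k = e * Int.gcd a b := by
      rw [ha, hb, Int.gcd_mul_left, Int.natAbs_natCast]
    rw [← he] at h3
    have h4 : Int.gcd a b = 1 := by
      have : e * 1 = e * Int.gcd a b := by omega
      exact (Nat.eq_of_mul_eq_mul_left hepos this).symm
    exact Int.isCoprime_iff_gcd_eq_one.2 h4
  have hLpos : 0 < e * a * b := by positivity
  have hdvd : ∀ x ∈ s, ∀ y ∈ s, (e * a * b : ℤ) ∣ x - y := by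
    intro x hx y hy
    have h3 : (e * a : ℤ) ∣ x - y := by
      rw [← ha]
      have h4 := dvd_sub (hA x hx) (hA y hy)
      have e' : x - c₀ - (y - c₀) = x - y := by ring
      rwa [e'] at h4
    have h5 : (e * b : ℤ) ∣ x - y := by
      rw [← hb]
      have h4 := dvd_sub (hB x hx) (hB y hy)
      have e' : x + c₀ - (y + c₀) = x - y := by ring
      rwa [e'] at h4
    obtain ⟨z, hz⟩ : (e : ℤ) ∣ x - y := (dvd_mul_right _ _).trans h3
    rw [hz] at h3 h5 ⊢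
    rw [mul_assoc]
    exact mul_dvd_mul_left _ (hab.mul_dvd (Int.dvd_of_mul_dvd_mul_left he0 h3)
      (Int.dvd_of_mul_dvd_mul_left he0 h5))
  have h3 := card_cong s (e * a * b) hLpos 0 g hg0.le (fun x hx => ⟨by exact_mod_cast (h1 x hx).1,
    by exact_mod_cast (h1 x hx).2.le⟩) hdvd
  refine h3.trans ?_
  rw [sub_zero]
  have h4 : (g : ℝ) = d * e * ((e * a * b : ℤ) : ℝ) := by
    have h5 : (g : ℤ) = d * e * (e * a * b) := by
      rw [hk]
      push_cast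
      rw [hh₁, ha]
      conv_lhs => rw [hb]
      ring
    have := congrArg (Int.cast (R := ℝ)) h5
    push_cast at this ⊢
    exact this
  have h5 : (0 : ℝ) < ((e * a * b : ℤ) : ℝ) := by exact_mod_cast hLpos
  have h6 : (g : ℝ) / ((e * a * b : ℤ) : ℝ) = d * e := by
    rw [h4]
    field_simp
  rw [h6]
  have h7 : (d : ℝ) ≤ |(p : ℝ)| := by
    have h8 := Int.le_of_dvd (abs_pos.2 hp) ((dvd_abs _ _).2 (show (d : ℤ) ∣ p by
      rw [hd]; exact Int.gcd_dvd_right _ _))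
    have h9 : ((d : ℤ) : ℝ) ≤ ((|p| : ℤ) : ℝ) := by exact_mod_cast h8
    push_cast at h9
    exact h9
  have hd1 : (1 : ℝ) ≤ d := by exact_mod_cast hdpos
  have he1' : (0 : ℝ) ≤ e := by positivity
  have hab1 : (1 : ℝ) ≤ ((a * b : ℤ) : ℝ) := by
    have : (1 : ℤ) ≤ a * b := by
      have := mul_pos hapos hbpos
      omega
    exact_mod_cast this
  have he5 : (e : ℝ) ≤ √g := by
    refine Real.le_sqrt_of_sq_le ?_
    rw [h4]
    have e1 : (d : ℝ) * e * ((e * a * b : ℤ) : ℝ) = (e : ℝ) ^ 2 * (d * ((a * b : ℤ) : ℝ)) := by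
      push_cast
      ring
    rw [e1]
    have h9 : 1 ≤ (d : ℝ) * ((a * b : ℤ) : ℝ) := one_le_mul_of_one_le_of_one_le hd1 hab1
    have h10 : (0 : ℝ) ≤ (e : ℝ) ^ 2 := by positivity
    nlinarith
  have h8 : (d : ℝ) * e ≤ |(p : ℝ)| * √g := mul_le_mul h7 he5 he1' hp0.le
  linarith

/-- A divisor bound. -/
theorem dvb : ∃ D : ℝ, 1 ≤ D ∧ ∀ g : ℕ, 0 < g → (g.divisors.card : ℝ) ≤ D * √(√(g : ℝ)) := by
  obtain ⟨D, hD, h⟩ := Pool.Agent.H505R2.div_bound (δ := 1 / 4) (by norm_num)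
  refine ⟨D, hD, fun g hg => ?_⟩
  refine (h g hg.ne').trans (le_of_eq ?_)
  congr 1
  rw [Real.sqrt_eq_rpow, Real.sqrt_eq_rpow, ← Real.rpow_mul (by positivity)]
  norm_num

/-- The weight. -/
noncomputable def wt (x : ℝ) : ℝ := √x * √(√x)

theorem wt_nn (x : ℝ) : 0 ≤ wt x := by unfold wt; positivity

theorem wt_mono {x y : ℝ} (h : x ≤ y) : wt x ≤ wt y := by
  unfold wt
  have h1 := Real.sqrt_le_sqrt h
  have h2 := Real.sqrt_le_sqrt h1
  gcongr

theorem wt_mul {c x : ℝ} (hc : 1 ≤ c) (hx : 0 ≤ x) : wt (c * x) ≤ c * wt x := by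
  unfold wt
  have hc0 : 0 ≤ c := by linarith
  rw [Real.sqrt_mul hc0, Real.sqrt_mul (Real.sqrt_nonneg c)]
  obtain ⟨q, hq⟩ : ∃ q : ℝ, q = √(√c) := ⟨_, rfl⟩
  have hq0 : 0 ≤ q := by rw [hq]; positivity
  have hq2 : √c = q ^ 2 := by rw [hq, Real.sq_sqrt (Real.sqrt_nonneg c)]
  have hq4 : c = q ^ 4 := by
    have : c = √c ^ 2 := (Real.sq_sqrt hc0).symm
    rw [hq2] at this
    rw [this]
    ring
  have hq1 : 1 ≤ q := by
    rw [hq]
    exact Real.one_le_sqrt.2 (Real.one_le_sqrt.2 hc)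
  rw [← hq, hq2]
  conv_rhs => rw [hq4]
  have h1 : q ^ 2 * √x * (q * √(√x)) = q ^ 3 * (√x * √(√x)) := by ring
  rw [h1]
  have h2 : q ^ 3 ≤ q ^ 4 := pow_le_pow_right₀ hq1 (by norm_num)
  have h3 : 0 ≤ √x * √(√x) := by positivity
  exact mul_le_mul_of_nonneg_right h2 h3

/-- **The number of roots, uniformly in the constant term.** -/
theorem roots3 : ∃ D : ℝ, 1 ≤ D ∧ ∀ (p M : ℤ) (g : ℕ), p ≠ 0 → 0 < g → ∀ s : Finset ℤ,
    (∀ c ∈ s, 0 ≤ c ∧ c < g) → (∀ c ∈ s, (g : ℤ) ∣ p * c ^ 2 - M) →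
    (s.card : ℝ) ≤ D * |(p : ℝ)| * wt g := by
  obtain ⟨D, hD, hDb⟩ := dvb
  refine ⟨2 * D, by linarith, fun p M g hp hg s h1 h2 => ?_⟩
  rcases s.eq_empty_or_nonempty with rfl | ⟨c₀, hc₀⟩
  · simp only [card_empty, Nat.cast_zero]
    have := wt_nn g
    positivity
  have hmap : ∀ c ∈ s, Int.gcd g (p * (c - c₀)) ∈ g.divisors := by
    intro c _
    rw [Nat.mem_divisors]
    refine ⟨?_, hg.ne'⟩
    have := Int.gcd_dvd_left (g : ℤ) (p * (c - c₀))
    exact_mod_cast this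
  rw [card_eq_sum_card_fiberwise hmap]
  push_cast
  have h3 : ∀ h ∈ g.divisors, ((s.filter fun c => Int.gcd g (p * (c - c₀)) = h).card : ℝ) ≤
      |(p : ℝ)| * √g + 1 := by
    intro h hh
    refine roots_fib3 (g := g) (h := h) hp hg (Nat.dvd_of_mem_divisors hh) (h2 c₀ hc₀) _
      (fun c hc => h1 c (mem_filter.1 hc).1) (fun c hc => ⟨(mem_filter.1 hc).2,
        h2 c (mem_filter.1 hc).1⟩)
  refine (sum_le_sum h3).trans ?_
  rw [sum_const, nsmul_eq_mul]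
  have h4 := hDb g hg
  have hg1 : (1 : ℝ) ≤ g := by exact_mod_cast hg
  have hsg : 1 ≤ √(g : ℝ) := Real.one_le_sqrt.2 hg1
  have hp1 : 1 ≤ |(p : ℝ)| := by
    rw [← Int.cast_abs]
    exact_mod_cast Int.one_le_abs hp
  have h5 : |(p : ℝ)| * √g + 1 ≤ 2 * (|(p : ℝ)| * √g) := by nlinarith
  unfold wt
  calc (g.divisors.card : ℝ) * (|(p : ℝ)| * √g + 1) ≤ D * √(√(g : ℝ)) * (2 * (|(p : ℝ)| * √g)) := by
        gcongr
    _ = _ := by ring

end Pool.Agent.V7H54.W
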