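import Pool.Agent.V7H54.W.Rt
import Pool.Agent.V7H54.A.Sl

/-!
# Sums over pairs with the weight `x ^ (3 / 4)`
-/

set_option autoImplicit false
set_option linter.all false

open scoped Real
open Finset

namespace Pool.Agent.V7H54.W

open Pool.Agent.V7H54.A

theorem wt_root {m : ℝ} (hm : 0 ≤ m) : 0 ≤ √(√m) ∧ √(√m) ^ 4 = m ∧ wt m = √(√m) ^ 3 := by
  have h1 : √(√m) ^ 2 = √m := Real.sq_sqrt (Real.sqrt_nonneg m)
  have h2 : √m ^ 2 = m := Real.sq_sqrt hm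
  refine ⟨Real.sqrt_nonneg _, ?_, ?_⟩
  · calc √(√m) ^ 4 = (√(√m) ^ 2) ^ 2 := by ring
      _ = m := by rw [h1, h2]
  · unfold wt
    calc √m * √(√m) = √(√m) ^ 2 * √(√m) := by rw [h1]
      _ = √(√m) ^ 3 := by ring

theorem wt_one_le {x : ℝ} (hx : 1 ≤ x) : 1 ≤ wt x ∧ √x ≤ wt x ∧ wt x ≤ x := by
  obtain ⟨h0, h1, h2⟩ := wt_root (by linarith : (0 : ℝ) ≤ x)
  have h3 : 1 ≤ √(√x) := Real.one_le_sqrt.2 (Real.one_le_sqrt.2 hx)
  have h4 : √(√x) ^ 2 = √x := Real.sq_sqrt (Real.sqrt_nonneg x)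
  refine ⟨?_, ?_, ?_⟩
  · rw [h2]
    exact one_le_pow₀ h3
  · rw [h2]
    refine h4.symm.le.trans ?_
    exact pow_le_pow_right₀ h3 (by norm_num)
  · rw [h2]
    refine le_trans ?_ h1.le
    exact pow_le_pow_right₀ h3 (by norm_num)

theorem sum_w0 (n : ℕ) : ∑ f ∈ Icc 1 n, wt (f : ℝ) * (1 / f) ≤ 2 * wt (n : ℝ) := by
  induction n with
  | zero => simp [wt]
  | succ n ih =>
    rw [sum_Icc_succ_top (by omega)]
    obtain ⟨a0, a1, a2⟩ := wt_root (show (0 : ℝ) ≤ (n : ℝ) by positivity)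
    obtain ⟨b0, b1, b2⟩ := wt_root (show (0 : ℝ) ≤ ((n + 1 : ℕ) : ℝ) by positivity)
    obtain ⟨x, hx⟩ : ∃ x : ℝ, x = √(√(n : ℝ)) := ⟨_, rfl⟩
    obtain ⟨y, hy⟩ : ∃ y : ℝ, y = √(√((n + 1 : ℕ) : ℝ)) := ⟨_, rfl⟩
    rw [← hx] at a0 a1 a2
    rw [← hy] at b0 b1 b2
    rw [a2] at ih
    rw [b2]
    have hxy : y ^ 4 = x ^ 4 + 1 := by
      rw [a1, b1]
      push_cast
      ring
    have hy0 : 0 < y := by
      rcases b0.lt_or_eq with h | h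
      · exact h
      · exfalso
        rw [← h] at hxy
        have : 0 ≤ x ^ 4 := by positivity
        norm_num at hxy
        linarith
    have hle : x ≤ y := by
      by_contra h
      push Not at h
      have : y ^ 4 < x ^ 4 := pow_lt_pow_left₀ h b0 (by norm_num)
      linarith
    rw [← b1]
    have e1 : y ^ 3 * (1 / y ^ 4) = 1 / y := by
      field_simp
    rw [e1]
    have h6 : 1 / y ≤ 2 * y ^ 3 - 2 * x ^ 3 := by
      rw [div_le_iff₀ hy0]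
      have h7 : (y - x) * (y ^ 3 + y ^ 2 * x + y * x ^ 2 + x ^ 3) = 1 := by
        have : (y - x) * (y ^ 3 + y ^ 2 * x + y * x ^ 2 + x ^ 3) = y ^ 4 - x ^ 4 := by ring
        rw [this, hxy]
        ring
      have h8 : (2 * y ^ 3 - 2 * x ^ 3) * y = (y - x) * (2 * y ^ 3 + 2 * y ^ 2 * x + 2 * y * x ^ 2) := by
        ring
      rw [h8, ← h7]
      refine mul_le_mul_of_nonneg_left ?_ (by linarith)
      have h9 : x ^ 3 ≤ y ^ 3 := pow_le_pow_left₀ a0 hle 3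
      have h10 : 0 ≤ y ^ 2 * x + y * x ^ 2 := by positivity
      linarith
    linarith

theorem sum_w1 (n : ℕ) : ∑ f ∈ Icc 1 n, wt (f : ℝ) * (1 / (f : ℝ) ^ 2) ≤ 5 := by
  have key : ∀ m : ℕ, ∑ f ∈ Icc 1 (m + 1), wt (f : ℝ) * (1 / (f : ℝ) ^ 2) ≤
      5 - 4 / √(√((m + 1 : ℕ) : ℝ)) := by
    intro m
    induction m with
    | zero =>
      simp [wt]
      norm_num
    | succ m ih =>
      rw [sum_Icc_succ_top (by omega)]
      obtain ⟨a0, a1, a2⟩ := wt_root (show (0 : ℝ) ≤ ((m + 1 : ℕ) : ℝ) by positivity)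
      obtain ⟨b0, b1, b2⟩ := wt_root (show (0 : ℝ) ≤ ((m + 1 + 1 : ℕ) : ℝ) by positivity)
      have hm1 : (1 : ℝ) ≤ ((m + 1 : ℕ) : ℝ) := by exact_mod_cast Nat.le_add_left 1 m
      have hx1 : 1 ≤ √(√((m + 1 : ℕ) : ℝ)) := Real.one_le_sqrt.2 (Real.one_le_sqrt.2 hm1)
      obtain ⟨x, hx⟩ : ∃ x : ℝ, x = √(√((m + 1 : ℕ) : ℝ)) := ⟨_, rfl⟩
      obtain ⟨y, hy⟩ : ∃ y : ℝ, y = √(√((m + 1 + 1 : ℕ) : ℝ)) := ⟨_, rfl⟩
      rw [← hx] at a0 a1 a2 hx1 ih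
      rw [← hy] at b0 b1 b2
      rw [b2, ← hy]
      have hxy : y ^ 4 = x ^ 4 + 1 := by
        rw [a1, b1]
        push_cast
        ring
      have hle : x ≤ y := by
        by_contra h
        push Not at h
        have : y ^ 4 < x ^ 4 := pow_lt_pow_left₀ h b0 (by norm_num)
        linarith
      have hx0 : 0 < x := by linarith
      have hy0 : 0 < y := by linarith
      rw [← b1]
      have e1 : y ^ 3 * (1 / (y ^ 4) ^ 2) = 1 / y ^ 5 := by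
        field_simp
      rw [e1]
      have h6 : 1 / y ^ 5 ≤ 4 / x - 4 / y := by
        have h6' : 4 / x - 4 / y = 4 * (y - x) / (x * y) := by
          field_simp
        rw [h6', div_le_div_iff₀ (by positivity) (by positivity)]
        have h7 : (y - x) * (y ^ 3 + y ^ 2 * x + y * x ^ 2 + x ^ 3) = 1 := by
          have : (y - x) * (y ^ 3 + y ^ 2 * x + y * x ^ 2 + x ^ 3) = y ^ 4 - x ^ 4 := by ring
          rw [this, hxy]
          ring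
        have h8 : 1 ≤ (y - x) * (4 * y ^ 3) := by
          rw [← h7]
          refine mul_le_mul_of_nonneg_left ?_ (by linarith)
          have c1 : x ^ 3 ≤ y ^ 3 := pow_le_pow_left₀ a0 hle 3
          have c2 : y ^ 2 * x ≤ y ^ 2 * y := by gcongr
          have c3 : y * x ^ 2 ≤ y * y ^ 2 := by gcongr
          linarith
        calc 1 * (x * y) ≤ y * y := by nlinarith
          _ = (y * y) * 1 := by ring
          _ ≤ (y * y) * ((y - x) * (4 * y ^ 3)) := by gcongr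
          _ = 4 * (y - x) * y ^ 5 := by ring
      linarith
  rcases n with _ | m
  · simp
  · refine (key m).trans ?_
    have : 0 ≤ 4 / √(√((m + 1 : ℕ) : ℝ)) := by positivity
    linarith

theorem sum_w2 (n : ℕ) : ∑ f ∈ Icc 1 n, wt (f : ℝ) ≤ n * wt (n : ℝ) := by
  have h1 : ∀ f ∈ Icc 1 n, wt (f : ℝ) ≤ wt (n : ℝ) := fun f hf => wt_mono (by
    exact_mod_cast (mem_Icc.1 hf).2)
  refine (sum_le_sum h1).trans (le_of_eq ?_)
  rw [sum_const, nsmul_eq_mul, Nat.card_Icc]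
  simp

/-- three sums -/
theorem slw (P : Finset (ℤ × ℤ)) {α ρ : ℝ} (hα : 1 ≤ α) (hρ : 0 < ρ)
    (h : ∀ x ∈ P, x.1 ≠ 0 ∧ |(x.1 : ℝ)| ≤ α ∧ |(x.2 : ℝ)| ≤ ρ * |(x.1 : ℝ)|) :
    ∑ x ∈ P, wt (Int.gcd x.1 x.2 : ℝ) * (1 / |(x.1 : ℝ)|) ≤
      20 * ρ * α + 4 * (ρ + (1 + Real.log α)) * wt α ∧
    ∑ x ∈ P, wt (Int.gcd x.1 x.2 : ℝ) * (Int.gcd x.1 x.2 : ℝ) * (1 / |(x.1 : ℝ)|) ≤
      8 * ρ * α * wt α + 2 * (ρ + (1 + Real.log α)) * (α * wt α) ∧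
    ∑ x ∈ P, wt (Int.gcd x.1 x.2 : ℝ) ≤ 20 * ρ * α ^ 2 + 4 * (α * wt α) := by
  have hα0 : 0 < α := by linarith
  have hlog : 0 ≤ Real.log α := Real.log_nonneg hα
  obtain ⟨n, hn⟩ : ∃ n : ℕ, n = ⌊α⌋₊ := ⟨_, rfl⟩
  have hnα : (n : ℝ) ≤ α := by rw [hn]; exact Nat.floor_le hα0.le
  have hsn : wt (n : ℝ) ≤ wt α := wt_mono hnα
  have hn0 : (0 : ℝ) ≤ n := by positivity
  have hs0 : 0 ≤ wt (n : ℝ) := wt_nn _
  have hsα : 0 ≤ wt α := wt_nn _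
  have h1 := sum_w0 n
  have h2 := sum_w1 n
  have h3 := sum_w2 n
  have h1' : ∑ f ∈ Icc 1 n, wt (f : ℝ) * (1 / f) ≤ 2 * wt α := by linarith
  have h3' : ∑ f ∈ Icc 1 n, wt (f : ℝ) ≤ α * wt α := h3.trans (by gcongr)
  have h' : ∀ x ∈ P, x.1 ≠ 0 ∧ |(x.1 : ℝ)| ≤ α ∧ |(x.2 : ℝ)| ≤ ρ * |(x.1 : ℝ)| ∧
      Nat.Coprime (Int.gcd x.1 x.2) 1 := fun x hx =>
    ⟨(h x hx).1, (h x hx).2.1, (h x hx).2.2, Nat.coprime_one_right _⟩
  have hPQ : ∀ x ∈ P, ∀ y ∈ P, ((1 : ℕ) : ℤ) ∣ x.1 - y.1 ∧ ((1 : ℕ) : ℤ) ∣ x.2 - y.2 :=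
    fun x _ y _ => by simp
  obtain ⟨b1, b2⟩ := sl P hα hρ le_rfl h' hPQ (fun f => wt (f : ℝ)) (fun f => wt_nn _)
  obtain ⟨b3, -⟩ := sl P hα hρ le_rfl h' hPQ (fun f => wt (f : ℝ) * f) (fun f => by
    have := wt_nn (f : ℝ)
    positivity)
  rw [← hn] at b1 b2 b3
  simp only [Nat.cast_one, one_pow, mul_one] at b1 b2 b3
  refine ⟨b1.trans ?_, b3.trans ?_, b2.trans ?_⟩
  · have e1 : ∑ f ∈ Icc 1 n, wt (f : ℝ) * (4 * ρ * α / f ^ 2 + 2 * ρ / f +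
        2 / f * (1 + Real.log α)) = 4 * ρ * α * ∑ f ∈ Icc 1 n, wt (f : ℝ) * (1 / (f : ℝ) ^ 2) +
        (2 * ρ + 2 * (1 + Real.log α)) * ∑ f ∈ Icc 1 n, wt (f : ℝ) * (1 / f) := by
      rw [mul_sum, mul_sum, ← sum_add_distrib]
      refine sum_congr rfl fun f hf => ?_
      have hf0 : (0 : ℝ) < f := by exact_mod_cast (mem_Icc.1 hf).1
      field_simp
      ring
    rw [e1]
    have e2 : 4 * ρ * α * ∑ f ∈ Icc 1 n, wt (f : ℝ) * (1 / (f : ℝ) ^ 2) ≤ 4 * ρ * α * 5 := by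
      gcongr
    have e3 : (2 * ρ + 2 * (1 + Real.log α)) * ∑ f ∈ Icc 1 n, wt (f : ℝ) * (1 / f) ≤
        (2 * ρ + 2 * (1 + Real.log α)) * (2 * wt α) := by
      gcongr
    calc _ ≤ 4 * ρ * α * 5 + (2 * ρ + 2 * (1 + Real.log α)) * (2 * wt α) := add_le_add e2 e3
      _ = _ := by ring
  · have e1 : ∑ f ∈ Icc 1 n, wt (f : ℝ) * f * (4 * ρ * α / f ^ 2 + 2 * ρ / f +
        2 / f * (1 + Real.log α)) = 4 * ρ * α * ∑ f ∈ Icc 1 n, wt (f : ℝ) * (1 / f) +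
        (2 * ρ + 2 * (1 + Real.log α)) * ∑ f ∈ Icc 1 n, wt (f : ℝ) := by
      rw [mul_sum, mul_sum, ← sum_add_distrib]
      refine sum_congr rfl fun f hf => ?_
      have hf0 : (0 : ℝ) < f := by exact_mod_cast (mem_Icc.1 hf).1
      field_simp
      ring
    rw [e1]
    have e2 : 4 * ρ * α * ∑ f ∈ Icc 1 n, wt (f : ℝ) * (1 / f) ≤ 4 * ρ * α * (2 * wt α) := by
      gcongr
    have e3 : (2 * ρ + 2 * (1 + Real.log α)) * ∑ f ∈ Icc 1 n, wt (f : ℝ) ≤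
        (2 * ρ + 2 * (1 + Real.log α)) * (α * wt α) := by
      gcongr
    calc _ ≤ 4 * ρ * α * (2 * wt α) + (2 * ρ + 2 * (1 + Real.log α)) * (α * wt α) := add_le_add e2 e3
      _ = _ := by ring
  · have e1 : ∑ f ∈ Icc 1 n, wt (f : ℝ) * (4 * ρ * α ^ 2 / f ^ 2 + 2 * α / f) =
        4 * ρ * α ^ 2 * ∑ f ∈ Icc 1 n, wt (f : ℝ) * (1 / (f : ℝ) ^ 2) +
        2 * α * ∑ f ∈ Icc 1 n, wt (f : ℝ) * (1 / f) := by
      rw [mul_sum, mul_sum, ← sum_add_distrib]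
      refine sum_congr rfl fun f hf => ?_
      have hf0 : (0 : ℝ) < f := by exact_mod_cast (mem_Icc.1 hf).1
      field_simp
    rw [e1]
    have e2 : 4 * ρ * α ^ 2 * ∑ f ∈ Icc 1 n, wt (f : ℝ) * (1 / (f : ℝ) ^ 2) ≤ 4 * ρ * α ^ 2 * 5 := by
      gcongr
    have e3 : 2 * α * ∑ f ∈ Icc 1 n, wt (f : ℝ) * (1 / f) ≤ 2 * α * (2 * wt α) := by gcongr
    calc _ ≤ 4 * ρ * α ^ 2 * 5 + 2 * α * (2 * wt α) := add_le_add e2 e3
      _ = _ := by ring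

end Pool.Agent.V7H54.W
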